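import Pool.Agent.X202.RA.Loc

/-! The main estimate. -/

set_option autoImplicit false
open Complex MeasureTheory Filter Topology Metric Set
open Pool.Agent.H761R2.SV (dbar)

namespace Pool.Agent.X202.RA

/-- the points of `K` where `f` is well approximated at scale `1/(k+1)` -/
def Ak (X K : Set ℂ) (f : ℂ → ℂ) (ε : ℝ) (k : ℕ) : Set ℂ :=
  {z | z ∈ K ∧ ∃ c : ℂ, ‖c‖ ≤ k ∧ ∀ w ∈ X, ‖w - z‖ < 1 / ((k : ℝ) + 1) →
    ‖f w - f z - c * (w - z)‖ ≤ ε * ‖w - z‖}

theorem Ak_closed {X K : Set ℂ} (hK : IsCompact K) {f : ℂ → ℂ} (hf : Continuous f) (ε : ℝ)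
    (k : ℕ) : IsClosed (Ak X K f ε k) := by
  set S : Set (ℂ × ℂ) := (K ×ˢ closedBall (0 : ℂ) k) ∩ ⋂ w ∈ X,
    ({p : ℂ × ℂ | 1 / ((k : ℝ) + 1) ≤ ‖w - p.1‖} ∪
      {p : ℂ × ℂ | ‖f w - f p.1 - p.2 * (w - p.1)‖ ≤ ε * ‖w - p.1‖}) with hS
  have hSc : IsCompact S := by
    apply (hK.prod (isCompact_closedBall _ _)).inter_right
    apply isClosed_biInter
    intro w _
    apply IsClosed.union
    · exact isClosed_le continuous_const (by fun_prop)
    · exact isClosed_le (by fun_prop) (by fun_prop)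
  have e : Ak X K f ε k = Prod.fst '' S := by
    ext z
    constructor
    · rintro ⟨hz, c, hc, h⟩
      refine ⟨(z, c), ⟨⟨hz, by simpa using hc⟩, ?_⟩, rfl⟩
      rw [mem_iInter₂]
      intro w hw
      rcases lt_or_ge ‖w - z‖ (1 / ((k : ℝ) + 1)) with h1 | h1
      · exact Or.inr (h w hw h1)
      · exact Or.inl h1
    · rintro ⟨⟨z', c⟩, ⟨⟨hz, hc⟩, h⟩, rfl⟩
      refine ⟨hz, c, by simpa using hc, fun w hw h1 => ?_⟩
      rw [mem_iInter₂] at h
      rcases h w hw with h2 | h2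
      · exact absurd h1 (not_lt.2 h2)
      · exact h2
  rw [e]
  exact (hSc.image continuous_fst).isClosed

theorem Ak_mono (X K : Set ℂ) (f : ℂ → ℂ) (ε : ℝ) : Monotone (Ak X K f ε) := by
  intro m n hmn z hz
  obtain ⟨h1, c, h2, h3⟩ := hz
  have hmn' : (m : ℝ) ≤ n := by exact_mod_cast hmn
  refine ⟨h1, c, h2.trans hmn', fun w hw h4 => h3 w hw (lt_of_lt_of_le h4 ?_)⟩
  apply one_div_le_one_div_of_le <;> [positivity; linarith]

/-- differentiability of `f` within `X` at `z`, as we use it -/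
def DiffAt (X : Set ℂ) (f : ℂ → ℂ) (z : ℂ) : Prop :=
  ∃ c : ℂ, ∀ ε : ℝ, 0 < ε → ∃ ρ : ℝ, 0 < ρ ∧ ∀ w ∈ X, ‖w - z‖ < ρ →
    ‖f w - f z - c * (w - z)‖ ≤ ε * ‖w - z‖

theorem Ak_union {X K : Set ℂ} {f : ℂ → ℂ} {ε : ℝ} (hε : 0 < ε)
    (hd : ∀ z ∈ K, DiffAt X f z) {z : ℂ} (hz : z ∈ K) : ∃ k, z ∈ Ak X K f ε k := by
  obtain ⟨c, hc⟩ := hd z hz
  obtain ⟨ρ, hρ, h⟩ := hc ε hε
  obtain ⟨n, hn⟩ := exists_nat_one_div_lt hρ
  obtain ⟨m, hm⟩ := exists_nat_ge ‖c‖
  refine ⟨max m n, hz, c, hm.trans (by exact_mod_cast le_max_left m n), fun w hw h1 => ?_⟩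
  apply h w hw
  refine h1.trans (lt_of_le_of_lt ?_ hn)
  have : (n : ℝ) ≤ (max m n : ℕ) := by exact_mod_cast le_max_right m n
  apply one_div_le_one_div_of_le <;> [positivity; linarith]

theorem exists_shell {X K : Set ℂ} (hK : IsCompact K) {f : ℂ → ℂ} (hf : Continuous f) {ε : ℝ}
    (hε : 0 < ε) (hd : ∀ z ∈ K, DiffAt X f z) {η : ℝ} (hη : 0 < η) :
    ∃ (k : ℕ) (τ : ℝ), 0 < τ ∧ volume (cthickening τ K \ Ak X K f ε k) ≤ ENNReal.ofReal η := by
  have hKc := hK.isClosed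
  have hAm : ∀ k, MeasurableSet (Ak X K f ε k) := fun k => (Ak_closed hK hf ε k).measurableSet
  -- choose `k`
  have h1 := tendsto_measure_iInter_atTop (μ := (volume : Measure ℂ))
    (s := fun k => K \ Ak X K f ε k)
    (fun n => (hKc.measurableSet.diff (hAm n)).nullMeasurableSet)
    (fun m n hmn => sdiff_subset_sdiff_right (Ak_mono X K f ε hmn))
    ⟨0, ne_top_of_le_ne_top hK.measure_lt_top.ne (measure_mono sdiff_subset)⟩
  have h2 : ⋂ k, K \ Ak X K f ε k = ∅ := by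
    rw [eq_empty_iff_forall_notMem]
    intro z hz
    rw [mem_iInter] at hz
    obtain ⟨k, hk⟩ := Ak_union hε hd (hz 0).1
    exact (hz k).2 hk
  rw [h2, measure_empty] at h1
  obtain ⟨k, hk⟩ := (h1.eventually_lt_const (show (0 : ENNReal) < ENNReal.ofReal η by
    simpa using hη)).exists
  -- choose `τ`
  have hfin : volume (cthickening 1 K) ≠ ⊤ := by
    exact (hK.cthickening (r := 1)).measure_lt_top.ne
  have h3 := tendsto_measure_iInter_atTop (μ := (volume : Measure ℂ))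
    (s := fun n : ℕ => cthickening (1 / ((n : ℝ) + 1)) K \ Ak X K f ε k)
    (fun n => (isClosed_cthickening.measurableSet.diff (hAm k)).nullMeasurableSet)
    (fun m n hmn => sdiff_subset_sdiff_left (cthickening_mono (by
      have : (m : ℝ) ≤ n := by exact_mod_cast hmn
      apply one_div_le_one_div_of_le <;> [positivity; linarith]) K))
    ⟨0, ne_top_of_le_ne_top hfin (measure_mono (sdiff_subset.trans (by simp)))⟩
  have h4 : ⋂ n : ℕ, cthickening (1 / ((n : ℝ) + 1)) K \ Ak X K f ε k = K \ Ak X K f ε k := by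
    ext z
    rw [mem_iInter]
    constructor
    · intro h
      refine ⟨?_, (h 0).2⟩
      rw [← hKc.closure_eq, closure_eq_iInter_cthickening, mem_iInter₂]
      intro δ hδ
      obtain ⟨n, hn⟩ := exists_nat_one_div_lt hδ
      exact cthickening_mono hn.le K (h n).1
    · intro h n
      exact ⟨self_subset_cthickening K h.1, h.2⟩
  rw [h4] at h3
  obtain ⟨n, hn⟩ := (h3.eventually_le_const hk).exists
  exact ⟨k, 1 / ((n : ℝ) + 1), by positivity, hn⟩

end Pool.Agent.X202.RA
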