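import Pool.Agent.X202.RA.Main

/-! Baire category argument and conclusion. -/

set_option autoImplicit false
open Complex MeasureTheory Filter Topology Metric Set
open Pool.Agent.H761R2.SV (dbar)

namespace Pool.Agent.X202.RA

theorem DiffAt.lip {X : Set ℂ} {f : ℂ → ℂ} {z : ℂ} (h : DiffAt X f z) {M : ℝ}
    (hM : ∀ w ∈ X, ‖f w‖ ≤ M) (hz : z ∈ X) :
    ∃ n : ℕ, ∀ w ∈ X, ‖f w - f z‖ ≤ n * ‖w - z‖ := by
  obtain ⟨c, hc⟩ := h
  obtain ⟨ρ, hρ, h1⟩ := hc 1 one_pos
  obtain ⟨n, hn⟩ := exists_nat_ge (max (‖c‖ + 1) (2 * M / ρ))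
  refine ⟨n, fun w hw => ?_⟩
  rcases lt_or_ge ‖w - z‖ ρ with h2 | h2
  · have h3 := h1 w hw h2
    calc ‖f w - f z‖ = ‖(f w - f z - c * (w - z)) + c * (w - z)‖ := by congr 1; ring
      _ ≤ 1 * ‖w - z‖ + ‖c‖ * ‖w - z‖ := by
          refine (norm_add_le _ _).trans (add_le_add h3 ?_)
          rw [norm_mul]
      _ = (‖c‖ + 1) * ‖w - z‖ := by ring
      _ ≤ n * ‖w - z‖ :=
          mul_le_mul_of_nonneg_right ((le_max_left _ _).trans hn) (norm_nonneg _)
  · have h3 : 2 * M / ρ ≤ n := (le_max_right _ _).trans hn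
    rw [div_le_iff₀ hρ] at h3
    have hn0 : (0 : ℝ) ≤ n := Nat.cast_nonneg n
    calc ‖f w - f z‖ ≤ ‖f w‖ + ‖f z‖ := norm_sub_le _ _
      _ ≤ 2 * M := by linarith [hM w hw, hM z hz]
      _ ≤ n * ρ := h3
      _ ≤ n * ‖w - z‖ := mul_le_mul_of_nonneg_left h2 hn0

theorem bad_empty {X : Set ℂ} (hX : IsCompact X) {F f : ℂ → ℂ} (hF : Fn X F)
    (hfF : ∀ w ∈ X, F w = f w) (hf : Continuous f) (hd : ∀ z ∈ X, DiffAt X f z) :
    Bad X F = ∅ := by
  by_contra hne
  rw [← Ne, ← Set.nonempty_iff_ne_empty] at hne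
  have hBX := bad_subset hX hF
  have hBc : IsCompact (Bad X F) := hX.of_isClosed_subset (isClosed_bad X F) hBX
  obtain ⟨M, hM⟩ := hX.exists_bound_of_continuousOn hf.continuousOn
  have hcs : CompactSpace (Bad X F) := isCompact_iff_compactSpace.1 hBc
  have hnon : Nonempty (Bad X F) := hne.to_subtype
  set E : ℕ → Set (Bad X F) := fun n => {z | ∀ w ∈ X, ‖f w - f z‖ ≤ n * ‖w - (z : ℂ)‖} with hE
  have hEc : ∀ n, IsClosed (E n) := by
    intro n
    have : E n = ⋂ w ∈ X, {z : Bad X F | ‖f w - f z‖ ≤ n * ‖w - (z : ℂ)‖} := by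
      ext z; simp [hE]
    rw [this]
    apply isClosed_biInter
    intro w _
    exact isClosed_le (by fun_prop) (by fun_prop)
  have hEu : ⋃ n, E n = univ := by
    rw [eq_univ_iff_forall]
    intro z
    rw [mem_iUnion]
    exact (hd z (hBX z.2)).lip hM (hBX z.2)
  obtain ⟨n, ⟨p, hp⟩⟩ := nonempty_interior_of_iUnion_of_closed hEc hEu
  rw [mem_interior] at hp
  obtain ⟨V, hVE, hVo, hpV⟩ := hp
  obtain ⟨U, hU, hUV⟩ := isOpen_induced_iff.1 hVo
  have hpU : (p : ℂ) ∈ U := by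
    have : p ∈ Subtype.val ⁻¹' U := by rw [hUV]; exact hpV
    exact this
  obtain ⟨ψ, h1, h2, h3⟩ := p.2 U hU hpU
  apply h3
  apply good_core hX hF hfF hf h1 (n := (n : ℝ)) (Nat.cast_nonneg n)
  · intro z hz w hw
    have hzV : (⟨z, hz.1⟩ : Bad X F) ∈ V := by
      rw [← hUV]; exact h2 hz.2
    exact hVE hzV w hw
  · intro z hz
    exact hd z (hBX hz.1)

theorem main {X : Set ℂ} (hX : IsCompact X) (f : C(X, ℂ))
    (hd : ∀ a : X, ∃ l : ℂ, Tendsto (fun z : X => (f z - f a) / ((z : ℂ) - a)) (𝓝[≠] a) (𝓝 l)) :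
    ∀ ε : ℝ, 0 < ε → ∃ r ∈ R0 X, ∀ z : X, ‖f z - r z‖ ≤ ε := by
  obtain ⟨g, hg⟩ := ContinuousMap.exists_restrict_eq hX.isClosed f
  have hgf : ∀ z : X, g z = f z := fun z => by rw [← hg]; rfl
  obtain ⟨M, hM⟩ := hX.exists_bound_of_continuousOn g.continuous.continuousOn
  set F : ℂ → ℂ := X.indicator g with hFdef
  have hF : Fn X F := by
    refine ⟨g.continuous.measurable.indicator hX.isClosed.measurableSet, ⟨|M|, fun w => ?_⟩,
      fun w hw => indicator_of_notMem hw _⟩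
    by_cases hw : w ∈ X
    · rw [hFdef, indicator_of_mem hw]; exact (hM w hw).trans (le_abs_self _)
    · rw [hFdef, indicator_of_notMem hw, norm_zero]; positivity
  have hfF : ∀ w ∈ X, F w = g w := fun w hw => indicator_of_mem hw _
  have hdiff : ∀ z ∈ X, DiffAt X g z := by
    intro z hz
    obtain ⟨l, hl⟩ := hd ⟨z, hz⟩
    refine ⟨l, fun ε hε => ?_⟩
    have h1 := (Metric.tendsto_nhds.1 hl) ε hε
    rw [eventually_nhdsWithin_iff, Metric.eventually_nhds_iff] at h1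
    obtain ⟨ρ, hρ, h2⟩ := h1
    refine ⟨ρ, hρ, fun w hw hwz => ?_⟩
    by_cases hne : w = z
    · subst hne; simp
    have h3 := h2 (y := ⟨w, hw⟩) (by rw [Subtype.dist_eq, dist_eq_norm]; exact hwz)
      (fun h => hne (congrArg Subtype.val h))
    have h0 : w - z ≠ 0 := sub_ne_zero.2 hne
    have h4 : g w - g z - l * (w - z) =
        ((f ⟨w, hw⟩ - f ⟨z, hz⟩) / (w - z) - l) * (w - z) := by
      rw [sub_mul, div_mul_cancel₀ _ h0, ← hgf ⟨w, hw⟩, ← hgf ⟨z, hz⟩]
    rw [h4, norm_mul]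
    rw [dist_eq_norm] at h3
    exact mul_le_mul_of_nonneg_right h3.le (norm_nonneg _)
  have hB := bad_empty hX hF hfF g.continuous hdiff
  -- a cut-off function
  obtain ⟨R, hR⟩ := hX.isBounded.subset_closedBall (0 : ℂ)
  let b : ContDiffBump (0 : ℂ) := ⟨|R| + 1, |R| + 2, by positivity, by linarith⟩
  set ψ : ℂ → ℂ := fun w => ((b w : ℝ) : ℂ) with hψ
  have hT : Test ψ := by
    refine ⟨?_, ?_⟩
    · have : ContDiff ℝ 1 (fun w : ℂ => b w) := b.contDiff
      exact Complex.ofRealCLM.contDiff.comp this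
    · exact b.hasCompactSupport.comp_left (g := fun x : ℝ => (x : ℂ)) (by simp)
  have hgood := good_of_disjoint hF hT (fun z _ => by rw [hB]; exact notMem_empty z)
  have hone : ∀ w, ‖w‖ < |R| + 1 → ψ w = 1 := by
    intro w hw
    have : b w = 1 := b.one_of_mem_closedBall (by rw [mem_closedBall_zero_iff]; exact hw.le)
    simp only [hψ]
    rw [this]; simp
  have hXR : ∀ w ∈ X, ‖w‖ < |R| + 1 := by
    intro w hw
    have := mem_closedBall_zero_iff.1 (hR hw)
    have := le_abs_self R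
    linarith
  have hA : Apx X F := by
    refine hgood.congr fun z hz => ?_
    unfold T
    have e : (fun w => F w * dbar ψ w) = fun _ => 0 := by
      funext w
      by_cases hw : w ∈ X
      · have h0 : ψ =ᶠ[𝓝 w] fun _ => 1 := by
          have : {v : ℂ | ‖v‖ < |R| + 1} ∈ 𝓝 w :=
            (isOpen_lt continuous_norm continuous_const).mem_nhds (hXR w hw)
          filter_upwards [this] with v hv
          exact hone v hv
        rw [Pool.Agent.H761R2.SV.dbar_congr h0, Pool.Agent.H761R2.SV.dbar_const, mul_zero]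
      · rw [hF.zero w hw, zero_mul]
    rw [e, P_zero, hone z (hXR z hz)]
    simp
  intro ε hε
  obtain ⟨r, hr, h⟩ := hA ε hε
  refine ⟨r, hr, fun z => ?_⟩
  rw [← hgf z, ← hfF z z.2]
  exact h z

end Pool.Agent.X202.RA
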