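import Pool.Agent.X202.RA.Rat
import Pool.Agent.H761R2.SV.Hol

/-! A partition of unity at scale `s`. -/

set_option autoImplicit false
open Complex MeasureTheory Filter Topology Metric Set
open Pool.Agent.H761R2.SV (dbar)

namespace Pool.Agent.X202.RA

/-- one-dimensional bump -/
noncomputable def bt (t : ℝ) : ℝ := Real.smoothTransition (t + 1) - Real.smoothTransition t

theorem bt_contDiff : ContDiff ℝ 1 bt := by
  have h : ContDiff ℝ 1 Real.smoothTransition := Real.smoothTransition.contDiff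
  exact (h.comp (contDiff_id.add contDiff_const)).sub h

theorem bt_zero {t : ℝ} (h : 1 ≤ |t|) : bt t = 0 := by
  unfold bt
  rcases le_abs.1 h with h1 | h1
  · rw [Real.smoothTransition.one_of_one_le (by linarith),
      Real.smoothTransition.one_of_one_le h1, sub_self]
  · rw [Real.smoothTransition.zero_of_nonpos (by linarith),
      Real.smoothTransition.zero_of_nonpos (by linarith), sub_self]

theorem bt_abs (t : ℝ) : |bt t| ≤ 1 := by
  unfold bt
  have h1 := Real.smoothTransition.nonneg (t + 1)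
  have h2 := Real.smoothTransition.nonneg t
  have h3 := Real.smoothTransition.le_one (t + 1)
  have h4 := Real.smoothTransition.le_one t
  rw [abs_le]
  constructor <;> linarith

theorem bt_sum (N : ℕ) {t : ℝ} (h : |t| ≤ N) :
    ∑ i ∈ Finset.range (2 * N + 1), bt (t - ((i : ℝ) - N)) = 1 := by
  have h1 : ∀ i : ℕ, bt (t - ((i : ℝ) - N)) =
      (fun i : ℕ => Real.smoothTransition (t + N + 1 - i)) i -
      (fun i : ℕ => Real.smoothTransition (t + N + 1 - i)) (i + 1) := by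
    intro i
    simp only [bt]
    congr 1
    · congr 1; ring
    · congr 1; push_cast; ring
  rw [Finset.sum_congr rfl fun i _ => h1 i, Finset.sum_range_sub']
  rw [abs_le] at h
  rw [Real.smoothTransition.one_of_one_le (by push_cast; linarith [h.1]),
    Real.smoothTransition.zero_of_nonpos (by push_cast; linarith [h.2]), sub_zero]

/-- the two-dimensional bump -/
noncomputable def b0 (z : ℂ) : ℂ := ((bt z.re * bt z.im : ℝ) : ℂ)

theorem b0_contDiff : ContDiff ℝ 1 b0 := by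
  have h1 : ContDiff ℝ 1 fun z : ℂ => bt z.re := bt_contDiff.comp Complex.reCLM.contDiff
  have h2 : ContDiff ℝ 1 fun z : ℂ => bt z.im := bt_contDiff.comp Complex.imCLM.contDiff
  exact Complex.ofRealCLM.contDiff.comp (h1.mul h2)

theorem b0_norm (z : ℂ) : ‖b0 z‖ ≤ 1 := by
  unfold b0
  rw [Complex.norm_real, Real.norm_eq_abs, abs_mul]
  exact mul_le_one₀ (bt_abs _) (abs_nonneg _) (bt_abs _)

theorem b0_zero {z : ℂ} (h : ¬ (|z.re| ≤ 1 ∧ |z.im| ≤ 1)) : b0 z = 0 := by
  unfold b0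
  by_cases h1 : |z.re| ≤ 1
  · have h2 : 1 ≤ |z.im| := by
      by_contra h3
      exact h ⟨h1, (not_le.1 h3).le⟩
    rw [bt_zero h2]; simp
  · rw [bt_zero (not_le.1 h1).le]; simp

theorem norm_le_two {z : ℂ} {s : ℝ} (h1 : |z.re| ≤ s) (h2 : |z.im| ≤ s) : ‖z‖ ≤ 2 * s := by
  have := Complex.norm_le_abs_re_add_abs_im z
  linarith

theorem b0_compact : HasCompactSupport b0 := by
  apply HasCompactSupport.intro (isCompact_closedBall (0 : ℂ) 2)
  intro z hz
  apply b0_zero
  intro h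
  apply hz
  rw [mem_closedBall_zero_iff]
  have := norm_le_two h.1 h.2
  linarith

theorem tsupport_dbar {f : ℂ → ℂ} : tsupport (dbar f) ⊆ tsupport f := by
  apply closure_minimal _ (isClosed_tsupport f)
  intro z hz
  by_contra h
  apply hz
  have h0 : f =ᶠ[𝓝 z] fun _ => 0 := notMem_tsupport_iff_eventuallyEq.1 h
  rw [Pool.Agent.H761R2.SV.dbar_congr h0, Pool.Agent.H761R2.SV.dbar_const]

theorem dbar_compact {f : ℂ → ℂ} (hf : HasCompactSupport f) : HasCompactSupport (dbar f) :=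
  hf.isCompact.of_isClosed_subset (isClosed_tsupport _) tsupport_dbar

theorem dbar_b0_bound : ∃ C : ℝ, 0 ≤ C ∧ ∀ z, ‖dbar b0 z‖ ≤ C := by
  obtain ⟨C, hC⟩ := (dbar_compact b0_compact).exists_bound_of_continuous
    (Pool.Agent.H761R2.SV.continuous_dbar b0_contDiff)
  exact ⟨C, (norm_nonneg _).trans (hC 0), hC⟩

theorem dbar_affine (s : ℝ) (c w : ℂ) :
    dbar (fun w => b0 (s⁻¹ • w - c)) w = (s⁻¹ : ℝ) * dbar b0 (s⁻¹ • w - c) := by
  have hG : ContDiff ℝ 1 fun v : ℂ => b0 (v - c) :=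
    b0_contDiff.comp (contDiff_id.sub contDiff_const)
  have h1 := Pool.Agent.H761R2.SV.dbar_comp_smul hG s⁻¹ w
  rw [h1]
  congr 1
  unfold dbar
  rw [fderiv_comp_sub]

theorem card_three (N : ℕ) (t : ℝ) :
    ((Finset.range (2 * N + 1)).filter fun i : ℕ => |t - ((i : ℝ) - N)| ≤ 1).card ≤ 3 := by
  have h1 : (Finset.Icc (⌊t⌋ - 1) (⌊t⌋ + 1)).card = 3 := by
    rw [Int.card_Icc]; omega
  rw [← h1]
  apply Finset.card_le_card_of_injOn (fun i : ℕ => (i : ℤ) - N)
  · intro i hi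
    have h2 := (Finset.mem_filter.1 hi).2
    rw [abs_le] at h2
    rw [Finset.coe_Icc, Set.mem_Icc]
    have hfl := Int.floor_le t
    have hlt := Int.lt_floor_add_one t
    constructor
    · have h3 : (⌊t⌋ : ℝ) - 1 ≤ ((i : ℤ) - N : ℤ) := by push_cast; linarith [h2.2]
      exact_mod_cast h3
    · have h3 : (((i : ℤ) - N : ℤ) : ℝ) < ⌊t⌋ + 2 := by push_cast; linarith [h2.1]
      have h4 : ((i : ℤ) - N : ℤ) < ⌊t⌋ + 2 := by exact_mod_cast h3
      change (i : ℤ) - N ≤ ⌊t⌋ + 1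
      omega
  · intro i _ j _ h
    simpa using h

/-- partition of unity at scale `s` -/
theorem grid : ∃ C : ℝ, 0 ≤ C ∧ ∀ (s R : ℝ), 0 < s → ∃ (J : Finset (ℕ × ℕ))
    (φ : ℕ × ℕ → ℂ → ℂ) (Q : ℕ × ℕ → Set ℂ),
    (∀ i, ContDiff ℝ 1 (φ i)) ∧ (∀ i, IsClosed (Q i)) ∧ (∀ i, tsupport (φ i) ⊆ Q i) ∧
    (∀ i, ∀ w ∈ Q i, ∀ w' ∈ Q i, ‖w - w'‖ ≤ 4 * s) ∧ (∀ i w, ‖φ i w‖ ≤ 1) ∧
    (∀ i w, ‖dbar (φ i) w‖ ≤ C / s) ∧ (∀ w, ‖w‖ ≤ R → ∑ i ∈ J, φ i w = 1) ∧
    ∀ w, ∀ J' ⊆ J, (∀ i ∈ J', w ∈ Q i) → J'.card ≤ 9 := by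
  obtain ⟨C, hC0, hC⟩ := dbar_b0_bound
  refine ⟨C, hC0, fun s R hs => ?_⟩
  obtain ⟨N, hN⟩ := exists_nat_ge (s⁻¹ * R)
  set c : ℕ × ℕ → ℂ := fun i => ⟨(i.1 : ℝ) - N, (i.2 : ℝ) - N⟩ with hc
  set Q : ℕ × ℕ → Set ℂ := fun i =>
    {w | |(s⁻¹ • w - c i).re| ≤ 1 ∧ |(s⁻¹ • w - c i).im| ≤ 1} with hQ
  have hQc : ∀ i, IsClosed (Q i) := fun i => by
    have hcont : Continuous fun w : ℂ => s⁻¹ • w - c i :=
      (continuous_const_smul _).sub continuous_const
    exact (isClosed_le (Complex.continuous_re.comp hcont).abs continuous_const).inter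
      (isClosed_le (Complex.continuous_im.comp hcont).abs continuous_const)
  refine ⟨Finset.range (2 * N + 1) ×ˢ Finset.range (2 * N + 1),
    fun i w => b0 (s⁻¹ • w - c i), Q, fun i => ?_, hQc, fun i => ?_, fun i w hw w' hw' => ?_,
    fun i w => b0_norm _, fun i w => ?_, fun w hw => ?_, fun w J' hJ' hw => ?_⟩
  · exact b0_contDiff.comp ((contDiff_const_smul _).sub contDiff_const)
  · apply closure_minimal _ (hQc i)
    intro w hw
    by_contra h
    exact hw (b0_zero h)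
  · have h1 : |(w - w').re| ≤ 2 * s := by
      have a := abs_le.1 hw.1
      have b := abs_le.1 hw'.1
      simp only [Complex.sub_re, Complex.smul_re, smul_eq_mul] at a b
      rw [Complex.sub_re, abs_le]
      have hx : s * (s⁻¹ * w.re) = w.re := by field_simp
      have hx' : s * (s⁻¹ * w'.re) = w'.re := by field_simp
      constructor <;> nlinarith [a.1, a.2, b.1, b.2]
    have h2 : |(w - w').im| ≤ 2 * s := by
      have a := abs_le.1 hw.2
      have b := abs_le.1 hw'.2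
      simp only [Complex.sub_im, Complex.smul_im, smul_eq_mul] at a b
      rw [Complex.sub_im, abs_le]
      have hx : s * (s⁻¹ * w.im) = w.im := by field_simp
      have hx' : s * (s⁻¹ * w'.im) = w'.im := by field_simp
      constructor <;> nlinarith [a.1, a.2, b.1, b.2]
    have := norm_le_two h1 h2
    linarith
  · rw [dbar_affine, norm_mul, Complex.norm_real, Real.norm_eq_abs, abs_of_pos (by positivity),
      div_eq_inv_mul]
    exact mul_le_mul_of_nonneg_left (hC _) (by positivity)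
  · have h1 : ∀ i : ℕ × ℕ, b0 (s⁻¹ • w - c i) =
        ((bt (s⁻¹ * w.re - ((i.1 : ℝ) - N)) * bt (s⁻¹ * w.im - ((i.2 : ℝ) - N)) : ℝ) : ℂ) := by
      intro i
      simp [b0, hc]
    simp only [h1]
    rw [← Complex.ofReal_sum, Finset.sum_product]
    simp only []
    rw [Finset.sum_congr rfl fun i _ => (Finset.mul_sum _ _ _).symm]
    have hre : |s⁻¹ * w.re| ≤ N := by
      rw [abs_mul, abs_of_pos (by positivity : 0 < s⁻¹)]
      exact (mul_le_mul_of_nonneg_left ((Complex.abs_re_le_norm w).trans hw)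
        (by positivity)).trans hN
    have him : |s⁻¹ * w.im| ≤ N := by
      rw [abs_mul, abs_of_pos (by positivity : 0 < s⁻¹)]
      exact (mul_le_mul_of_nonneg_left ((Complex.abs_im_le_norm w).trans hw)
        (by positivity)).trans hN
    rw [bt_sum N him]
    simp only [mul_one]
    rw [bt_sum N hre]
    simp
  · have h1 : J' ⊆ ((Finset.range (2 * N + 1)).filter
        fun i : ℕ => |s⁻¹ * w.re - ((i : ℝ) - N)| ≤ 1) ×ˢ ((Finset.range (2 * N + 1)).filter
        fun i : ℕ => |s⁻¹ * w.im - ((i : ℝ) - N)| ≤ 1) := by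
      intro i hi
      have h2 := Finset.mem_product.1 (hJ' hi)
      have h3 := hw i hi
      rw [Finset.mem_product, Finset.mem_filter, Finset.mem_filter]
      refine ⟨⟨h2.1, ?_⟩, ⟨h2.2, ?_⟩⟩
      · simpa [hc] using h3.1
      · simpa [hc] using h3.2
    calc J'.card ≤ _ := Finset.card_le_card h1
      _ ≤ 3 * 3 := by
          rw [Finset.card_product]
          exact Nat.mul_le_mul (card_three N _) (card_three N _)
      _ = 9 := by norm_num

end Pool.Agent.X202.RA
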