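import Pool.Agent.H761R2.SV.Pomp

/-! Cauchy kernel estimates and Cauchy transforms of bounded measurable densities. -/

set_option autoImplicit false
open Complex MeasureTheory Filter Topology Metric Set

namespace Pool.Agent.X202.RA

/-- the integral of the kernel on a disc centred at `0` -/
noncomputable def Ir (r : ℝ) : ℝ := ∫ u in ball (0 : ℂ) r, ‖u‖⁻¹

theorem Ir_nonneg (r : ℝ) : 0 ≤ Ir r := by
  unfold Ir
  exact integral_nonneg fun u => by positivity

theorem Ir_tendsto : ∀ ε : ℝ, 0 < ε → ∃ r : ℝ, 0 < r ∧ Ir r ≤ ε := by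
  intro ε hε
  have hanti : Antitone fun n : ℕ => ball (0 : ℂ) (1 / ((n : ℝ) + 1)) := by
    intro m n hmn
    apply ball_subset_ball
    have : (m : ℝ) ≤ n := by exact_mod_cast hmn
    apply one_div_le_one_div_of_le <;> [positivity; linarith]
  have h1 := tendsto_setIntegral_of_antitone (μ := (volume : Measure ℂ))
    (f := fun u : ℂ => ‖u‖⁻¹)
    (s := fun n : ℕ => ball (0 : ℂ) (1 / ((n : ℝ) + 1))) (fun n => measurableSet_ball) hanti
    ⟨0, Pool.Agent.H761R2.SV.integrableOn_norm_inv _⟩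
  have h2 : (⋂ n : ℕ, ball (0 : ℂ) (1 / ((n : ℝ) + 1))) ⊆ {0} := by
    intro u hu
    rw [mem_iInter] at hu
    by_contra hne
    have hpos : 0 < ‖u‖ := norm_pos_iff.2 hne
    obtain ⟨n, hn⟩ := exists_nat_one_div_lt hpos
    have := hu n
    rw [mem_ball_zero_iff] at this
    linarith
  have h3 : ∫ u in ⋂ n : ℕ, ball (0 : ℂ) (1 / ((n : ℝ) + 1)), ‖u‖⁻¹ = 0 := by
    apply setIntegral_measure_zero
    exact measure_mono_null h2 (measure_singleton _)
  rw [h3] at h1
  obtain ⟨n, hn⟩ := ((Metric.tendsto_atTop.1 h1) ε hε)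
  refine ⟨1 / ((n : ℝ) + 1), by positivity, ?_⟩
  have := hn n le_rfl
  rw [Real.dist_eq, sub_zero] at this
  exact (le_abs_self _).trans this.le

theorem ker_meas (z : ℂ) : Measurable fun w : ℂ => ‖z - w‖⁻¹ := by fun_prop

theorem ker_ball (z : ℂ) (r : ℝ) : IntegrableOn (fun w : ℂ => ‖z - w‖⁻¹) (ball z r) ∧
    ∫ w in ball z r, ‖z - w‖⁻¹ = Ir r := by
  have h1 : Integrable ((ball (0 : ℂ) r).indicator fun u : ℂ => ‖u‖⁻¹) :=
    (integrable_indicator_iff measurableSet_ball).2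
      (Pool.Agent.H761R2.SV.integrableOn_norm_inv _)
  have e : (fun w : ℂ => (ball (0 : ℂ) r).indicator (fun u : ℂ => ‖u‖⁻¹) (z - w)) =
      (ball z r).indicator fun w : ℂ => ‖z - w‖⁻¹ := by
    funext w
    by_cases h : w ∈ ball z r
    · rw [indicator_of_mem h, indicator_of_mem]
      rw [mem_ball_zero_iff, ← dist_eq_norm, dist_comm]; exact h
    · rw [indicator_of_notMem h, indicator_of_notMem]
      rw [mem_ball_zero_iff, ← dist_eq_norm, dist_comm]; exact h
  have h2 := h1.comp_sub_left z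
  have h3 := integral_sub_left_eq_self
    ((ball (0 : ℂ) r).indicator fun u : ℂ => ‖u‖⁻¹) volume z
  rw [e] at h2 h3
  refine ⟨(integrable_indicator_iff measurableSet_ball).1 h2, ?_⟩
  rw [integral_indicator measurableSet_ball, integral_indicator measurableSet_ball] at h3
  exact h3

theorem ker_int {E : Set ℂ} (hE : MeasurableSet E) (hf : volume E ≠ ⊤) (z : ℂ) :
    IntegrableOn (fun w : ℂ => ‖z - w‖⁻¹) E := by
  have h1 : IntegrableOn (fun w : ℂ => ‖z - w‖⁻¹) (E ∩ ball z 1) :=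
    (ker_ball z 1).1.mono_set inter_subset_right
  have h2 : IntegrableOn (fun w : ℂ => ‖z - w‖⁻¹) (E \ ball z 1) := by
    have hc : IntegrableOn (fun _ : ℂ => (1 : ℝ)) (E \ ball z 1) := by
      rw [integrableOn_const_iff]
      right
      exact lt_of_le_of_lt (measure_mono diff_subset) hf.lt_top
    refine Integrable.mono' hc (ker_meas z).aestronglyMeasurable ?_
    rw [ae_restrict_iff' (hE.diff measurableSet_ball)]
    refine Eventually.of_forall fun w hw => ?_
    have : 1 ≤ ‖z - w‖ := by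
      have h := hw.2
      rw [mem_ball, not_lt, dist_comm, dist_eq_norm] at h
      exact h
    rw [norm_inv, norm_norm]
    exact inv_le_one_of_one_le₀ this
  have := h1.union h2
  rwa [inter_union_diff] at this

theorem ker_le {E : Set ℂ} (hE : MeasurableSet E) (hf : volume E ≠ ⊤) {r : ℝ} (hr : 0 < r)
    (z : ℂ) : ∫ w in E, ‖z - w‖⁻¹ ≤ Ir r + r⁻¹ * (volume E).toReal := by
  have h0 : ∀ w : ℂ, (0 : ℝ) ≤ ‖z - w‖⁻¹ := fun w => by positivity
  have hi := ker_int hE hf z
  have e : ∫ w in E, ‖z - w‖⁻¹ =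
      (∫ w in E ∩ ball z r, ‖z - w‖⁻¹) + ∫ w in E \ ball z r, ‖z - w‖⁻¹ :=
    (integral_inter_add_diff measurableSet_ball hi).symm
  rw [e]
  have h1 : ∫ w in E ∩ ball z r, ‖z - w‖⁻¹ ≤ Ir r := by
    rw [← (ker_ball z r).2]
    exact setIntegral_mono_set (ker_ball z r).1 (Eventually.of_forall h0)
      (inter_subset_right.eventuallyLE)
  have h2 : ∫ w in E \ ball z r, ‖z - w‖⁻¹ ≤ r⁻¹ * (volume E).toReal := by
    have hfin : volume (E \ ball z r) < ⊤ :=
      lt_of_le_of_lt (measure_mono diff_subset) hf.lt_top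
    have hc : IntegrableOn (fun _ : ℂ => r⁻¹) (E \ ball z r) := by
      rw [integrableOn_const_iff]
      right
      exact hfin
    calc ∫ w in E \ ball z r, ‖z - w‖⁻¹ ≤ ∫ w in E \ ball z r, r⁻¹ := by
          apply setIntegral_mono_on (hi.mono_set diff_subset) hc (hE.diff measurableSet_ball)
          intro w hw
          have h := hw.2
          rw [mem_ball, not_lt, dist_comm, dist_eq_norm] at h
          exact inv_anti₀ hr h
      _ = (volume (E \ ball z r)).toReal * r⁻¹ := by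
          rw [setIntegral_const, smul_eq_mul]; rfl
      _ ≤ r⁻¹ * (volume E).toReal := by
          rw [mul_comm]
          apply mul_le_mul_of_nonneg_left _ (by positivity)
          exact ENNReal.toReal_mono hf (measure_mono diff_subset)
  linarith

/-- uniform smallness -/
theorem ker_small {ε : ℝ} (hε : 0 < ε) : ∃ η : ℝ, 0 < η ∧ ∀ E : Set ℂ, MeasurableSet E →
    volume E ≤ ENNReal.ofReal η → ∀ z : ℂ, ∫ w in E, ‖z - w‖⁻¹ ≤ ε := by
  obtain ⟨r, hr, hIr⟩ := Ir_tendsto (ε / 2) (by positivity)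
  refine ⟨r * (ε / 2), by positivity, fun E hE hv z => ?_⟩
  have hf : volume E ≠ ⊤ := ne_top_of_le_ne_top ENNReal.ofReal_ne_top hv
  have h1 := ker_le hE hf hr z
  have h2 : (volume E).toReal ≤ r * (ε / 2) := by
    have := ENNReal.toReal_mono ENNReal.ofReal_ne_top hv
    rwa [ENNReal.toReal_ofReal (by positivity)] at this
  have h3 : r⁻¹ * (volume E).toReal ≤ ε / 2 := by
    calc r⁻¹ * (volume E).toReal ≤ r⁻¹ * (r * (ε / 2)) :=
          mul_le_mul_of_nonneg_left h2 (by positivity)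
      _ = ε / 2 := by field_simp
  linarith

/-- bounded measurable densities with bounded support -/
structure BM (g : ℂ → ℂ) : Prop where
  meas : Measurable g
  bdd : ∃ M : ℝ, ∀ w, ‖g w‖ ≤ M
  supp : ∃ R : ℝ, ∀ w, R < ‖w‖ → g w = 0

/-- the Cauchy transform -/
noncomputable def P (g : ℂ → ℂ) (z : ℂ) : ℂ := ∫ w, g w * (z - w)⁻¹

theorem BM.of_continuous {g : ℂ → ℂ} (hg : Continuous g) (hc : HasCompactSupport g) : BM g := by
  obtain ⟨M, hM⟩ := hc.exists_bound_of_continuous hg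
  obtain ⟨R, hR⟩ := (hc.isCompact.isBounded).subset_closedBall (0 : ℂ)
  refine ⟨hg.measurable, ⟨M, hM⟩, ⟨R, fun w hw => ?_⟩⟩
  apply image_eq_zero_of_notMem_tsupport
  intro h
  have := hR h
  rw [mem_closedBall_zero_iff] at this
  linarith

theorem BM.add {g h : ℂ → ℂ} (hg : BM g) (hh : BM h) : BM (fun w => g w + h w) := by
  obtain ⟨m1, ⟨M1, b1⟩, ⟨R1, s1⟩⟩ := hg
  obtain ⟨m2, ⟨M2, b2⟩, ⟨R2, s2⟩⟩ := hh
  refine ⟨m1.add m2, ⟨M1 + M2, fun w => (norm_add_le _ _).trans (add_le_add (b1 w) (b2 w))⟩,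
    ⟨max R1 R2, fun w hw => ?_⟩⟩
  rw [s1 w (lt_of_le_of_lt (le_max_left _ _) hw), s2 w (lt_of_le_of_lt (le_max_right _ _) hw),
    add_zero]

theorem BM.neg {g : ℂ → ℂ} (hg : BM g) : BM (fun w => - g w) := by
  obtain ⟨m1, ⟨M1, b1⟩, ⟨R1, s1⟩⟩ := hg
  refine ⟨m1.neg, ⟨M1, fun w => by rw [norm_neg]; exact b1 w⟩, ⟨R1, fun w hw => ?_⟩⟩
  rw [s1 w hw, neg_zero]

theorem BM.indicator {g : ℂ → ℂ} (hg : BM g) {E : Set ℂ} (hE : MeasurableSet E) :
    BM (E.indicator g) := by
  obtain ⟨m1, ⟨M1, b1⟩, ⟨R1, s1⟩⟩ := hg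
  refine ⟨m1.indicator hE, ⟨M1, fun w => ?_⟩, ⟨R1, fun w hw => ?_⟩⟩
  · exact (norm_indicator_le_norm_self g w).trans (b1 w)
  · by_cases h : w ∈ E
    · rw [indicator_of_mem h, s1 w hw]
    · rw [indicator_of_notMem h]

theorem BM.mul {g h : ℂ → ℂ} (hg : BM g) (hm : Measurable h)
    (hb : ∀ R : ℝ, ∃ M : ℝ, ∀ w, ‖w‖ ≤ R → ‖h w‖ ≤ M) : BM (fun w => h w * g w) := by
  obtain ⟨m1, ⟨M1, b1⟩, ⟨R1, s1⟩⟩ := hg
  obtain ⟨M, hM⟩ := hb R1
  refine ⟨hm.mul m1, ⟨|M| * |M1|, fun w => ?_⟩, ⟨R1, fun w hw => ?_⟩⟩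
  · rcases le_or_gt ‖w‖ R1 with h1 | h1
    · rw [norm_mul]
      exact mul_le_mul ((hM w h1).trans (le_abs_self _)) ((b1 w).trans (le_abs_self _))
        (norm_nonneg _) (abs_nonneg _)
    · rw [s1 w h1, mul_zero, norm_zero]; positivity
  · rw [s1 w hw, mul_zero]

theorem BM.zero : BM (fun _ => (0 : ℂ)) :=
  ⟨measurable_const, ⟨0, fun _ => by simp⟩, ⟨0, fun _ _ => rfl⟩⟩

theorem BM.sum {ι : Type*} (s : Finset ι) {g : ι → ℂ → ℂ} (hg : ∀ i ∈ s, BM (g i)) :
    BM (fun w => ∑ i ∈ s, g i w) := by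
  classical
  induction s using Finset.induction_on with
  | empty => simpa using BM.zero
  | insert a s ha ih =>
    have h1 := ih fun i hi => hg i (Finset.mem_insert_of_mem hi)
    have h2 := hg a (Finset.mem_insert_self _ _)
    have e : (fun w => ∑ i ∈ insert a s, g i w) = fun w => g a w + ∑ i ∈ s, g i w := by
      funext w; rw [Finset.sum_insert ha]
    rw [e]
    exact h2.add h1

theorem BM.int {g : ℂ → ℂ} (hg : BM g) (z : ℂ) : Integrable fun w => g w * (z - w)⁻¹ := by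
  obtain ⟨m1, ⟨M1, b1⟩, ⟨R1, s1⟩⟩ := hg
  have h1 : IntegrableOn (fun w : ℂ => ‖z - w‖⁻¹) (closedBall (0 : ℂ) R1) :=
    ker_int measurableSet_closedBall
      (isCompact_closedBall (0 : ℂ) R1).measure_lt_top.ne z
  have h2 : Integrable (fun w : ℂ => M1 *
      (closedBall (0 : ℂ) R1).indicator (fun w : ℂ => ‖z - w‖⁻¹) w) :=
    ((integrable_indicator_iff measurableSet_closedBall).2 h1).const_mul M1
  refine h2.mono' (by fun_prop) (Eventually.of_forall fun w => ?_)
  by_cases hw : w ∈ closedBall (0 : ℂ) R1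
  · rw [indicator_of_mem hw, norm_mul, norm_inv]
    exact mul_le_mul_of_nonneg_right (b1 w) (by positivity)
  · rw [mem_closedBall_zero_iff, not_le] at hw
    rw [s1 w hw, zero_mul, norm_zero, indicator_of_notMem, mul_zero]
    rw [mem_closedBall_zero_iff, not_le]; exact hw

theorem P_add {g h : ℂ → ℂ} (hg : BM g) (hh : BM h) (z : ℂ) :
    P (fun w => g w + h w) z = P g z + P h z := by
  unfold P
  rw [← integral_add (hg.int z) (hh.int z)]
  congr 1
  funext w
  ring

theorem P_neg {g : ℂ → ℂ} (z : ℂ) : P (fun w => - g w) z = - P g z := by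
  unfold P
  rw [← integral_neg]
  congr 1
  funext w
  ring

theorem P_zero (z : ℂ) : P (fun _ => 0) z = 0 := by
  unfold P; simp

theorem P_sum {ι : Type*} (s : Finset ι) {g : ι → ℂ → ℂ} (hg : ∀ i ∈ s, BM (g i)) (z : ℂ) :
    P (fun w => ∑ i ∈ s, g i w) z = ∑ i ∈ s, P (g i) z := by
  classical
  induction s using Finset.induction_on with
  | empty => simpa using P_zero z
  | insert a s ha ih =>
    have h1 := ih fun i hi => hg i (Finset.mem_insert_of_mem hi)
    have e : (fun w => ∑ i ∈ insert a s, g i w) = fun w => g a w + ∑ i ∈ s, g i w := by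
      funext w; rw [Finset.sum_insert ha]
    rw [e, P_add (hg a (Finset.mem_insert_self _ _))
      (BM.sum s fun i hi => hg i (Finset.mem_insert_of_mem hi)), h1, Finset.sum_insert ha]

/-- main bound -/
theorem P_le {g : ℂ → ℂ} {E G : Set ℂ} (hE : MeasurableSet E)
    (hEf : volume E ≠ ⊤) (hG : MeasurableSet G) (hGf : volume G ≠ ⊤) {a b : ℝ}
    (ha : 0 ≤ a) (hb : 0 ≤ b)
    (h : ∀ w, ‖g w‖ ≤ E.indicator (fun _ => a) w + G.indicator (fun _ => b) w) (z : ℂ) :
    ‖P g z‖ ≤ a * (∫ w in E, ‖z - w‖⁻¹) + b * ∫ w in G, ‖z - w‖⁻¹ := by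
  have i1 : Integrable (E.indicator fun w : ℂ => ‖z - w‖⁻¹) :=
    (integrable_indicator_iff hE).2 (ker_int hE hEf z)
  have i2 : Integrable (G.indicator fun w : ℂ => ‖z - w‖⁻¹) :=
    (integrable_indicator_iff hG).2 (ker_int hG hGf z)
  have key : ‖P g z‖ ≤ ∫ w, (a * E.indicator (fun w : ℂ => ‖z - w‖⁻¹) w +
      b * G.indicator (fun w : ℂ => ‖z - w‖⁻¹) w) := by
    unfold P
    apply norm_integral_le_of_norm_le ((i1.const_mul a).add (i2.const_mul b))
    refine Eventually.of_forall fun w => ?_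
    rw [norm_mul, norm_inv]
    have e : a * E.indicator (fun w : ℂ => ‖z - w‖⁻¹) w +
      b * G.indicator (fun w : ℂ => ‖z - w‖⁻¹) w =
      (E.indicator (fun _ => a) w + G.indicator (fun _ => b) w) * ‖z - w‖⁻¹ := by
      by_cases h1 : w ∈ E <;> by_cases h2 : w ∈ G <;> simp [h1, h2, add_mul]
    simp only [Pi.add_apply]
    rw [e]
    exact mul_le_mul_of_nonneg_right (h w) (by positivity)
  rw [integral_add (i1.const_mul a) (i2.const_mul b), integral_const_mul, integral_const_mul,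
    integral_indicator hE, integral_indicator hG] at key
  exact key

end Pool.Agent.X202.RA
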