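import Pool.Agent.X202.RA.Grid

/-! Localisation operators and the bad set. -/

set_option autoImplicit false
open Complex MeasureTheory Filter Topology Metric Set
open Pool.Agent.H761R2.SV (dbar)

namespace Pool.Agent.X202.RA

/-- test functions -/
structure Test (ψ : ℂ → ℂ) : Prop where
  cd : ContDiff ℝ 1 ψ
  cs : HasCompactSupport ψ

/-- the function under consideration: bounded, measurable, zero off `X` -/
structure Fn (X : Set ℂ) (F : ℂ → ℂ) : Prop where
  meas : Measurable F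
  bdd : ∃ M : ℝ, ∀ w, ‖F w‖ ≤ M
  zero : ∀ w, w ∉ X → F w = 0

/-- localisation operator -/
noncomputable def T (F ψ : ℂ → ℂ) (z : ℂ) : ℂ :=
  F z * ψ z - (Real.pi : ℂ)⁻¹ * P (fun w => F w * dbar ψ w) z

theorem dbar_off {ψ : ℂ → ℂ} {z : ℂ} (h : z ∉ tsupport ψ) : dbar ψ z = 0 := by
  have h0 : ψ =ᶠ[𝓝 z] fun _ => 0 := notMem_tsupport_iff_eventuallyEq.1 h
  rw [Pool.Agent.H761R2.SV.dbar_congr h0, Pool.Agent.H761R2.SV.dbar_const]

theorem Test.bm {ψ : ℂ → ℂ} (h : Test ψ) : BM (dbar ψ) :=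
  BM.of_continuous (Pool.Agent.H761R2.SV.continuous_dbar h.cd) (dbar_compact h.cs)

theorem Fn.bm {X : Set ℂ} {F ψ : ℂ → ℂ} (hF : Fn X F) (h : Test ψ) :
    BM (fun w => F w * dbar ψ w) := by
  obtain ⟨M, hM⟩ := hF.bdd
  exact h.bm.mul hF.meas fun R => ⟨M, fun w _ => hM w⟩

theorem Test.zero : Test (fun _ => (0 : ℂ)) :=
  ⟨contDiff_const, HasCompactSupport.zero⟩

theorem Test.add {φ ψ : ℂ → ℂ} (hφ : Test φ) (hψ : Test ψ) : Test (fun w => φ w + ψ w) :=
  ⟨hφ.cd.add hψ.cd, hφ.cs.add hψ.cs⟩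

theorem Test.mul {φ ψ : ℂ → ℂ} (hφ : ContDiff ℝ 1 φ) (hψ : Test ψ) : Test (fun w => φ w * ψ w) :=
  ⟨hφ.mul hψ.cd, hψ.cs.mul_left⟩

theorem Test.sum {ι : Type*} (s : Finset ι) {g : ι → ℂ → ℂ} (hg : ∀ i ∈ s, Test (g i)) :
    Test (fun w => ∑ i ∈ s, g i w) := by
  classical
  induction s using Finset.induction_on with
  | empty => simpa using Test.zero
  | insert a s ha ih =>
    have h1 := ih fun i hi => hg i (Finset.mem_insert_of_mem hi)
    have h2 := hg a (Finset.mem_insert_self _ _)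
    have e : (fun w => ∑ i ∈ insert a s, g i w) = fun w => g a w + ∑ i ∈ s, g i w := by
      funext w; rw [Finset.sum_insert ha]
    rw [e]
    exact h2.add h1

theorem T_add {X : Set ℂ} {F φ ψ : ℂ → ℂ} (hF : Fn X F) (hφ : Test φ) (hψ : Test ψ) (z : ℂ) :
    T F (fun w => φ w + ψ w) z = T F φ z + T F ψ z := by
  unfold T
  have e : (fun w => F w * dbar (fun w => φ w + ψ w) w) =
      fun w => F w * dbar φ w + F w * dbar ψ w := by
    funext w
    rw [Pool.Agent.H761R2.SV.dbar_add (hφ.cd.differentiable (by simp) w)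
      (hψ.cd.differentiable (by simp) w), mul_add]
  rw [e, P_add (hF.bm hφ) (hF.bm hψ)]
  ring

theorem T_zero {F : ℂ → ℂ} (z : ℂ) : T F (fun _ => 0) z = 0 := by
  unfold T
  have e : (fun w => F w * dbar (fun _ => (0 : ℂ)) w) = fun _ => 0 := by
    funext w
    rw [Pool.Agent.H761R2.SV.dbar_const, mul_zero]
  rw [e, P_zero]; simp

theorem T_sum {X : Set ℂ} {F : ℂ → ℂ} (hF : Fn X F) {ι : Type*} (s : Finset ι)
    {g : ι → ℂ → ℂ} (hg : ∀ i ∈ s, Test (g i)) (z : ℂ) :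
    T F (fun w => ∑ i ∈ s, g i w) z = ∑ i ∈ s, T F (g i) z := by
  classical
  induction s using Finset.induction_on with
  | empty => simpa using T_zero z
  | insert a s ha ih =>
    have e : (fun w => ∑ i ∈ insert a s, g i w) = fun w => g a w + ∑ i ∈ s, g i w := by
      funext w; rw [Finset.sum_insert ha]
    rw [e, T_add hF (hg a (Finset.mem_insert_self _ _))
      (Test.sum s fun i hi => hg i (Finset.mem_insert_of_mem hi)),
      ih fun i hi => hg i (Finset.mem_insert_of_mem hi), Finset.sum_insert ha]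

/-- subtraction of a holomorphic function -/
noncomputable def Ta (X : Set ℂ) (F a ψ : ℂ → ℂ) (z : ℂ) : ℂ :=
  (F z - a z) * ψ z - (Real.pi : ℂ)⁻¹ * P (X.indicator fun w => (F w - a w) * dbar ψ w) z

theorem BM.mul_cont {g a : ℂ → ℂ} (hg : BM g) (ha : Continuous a) : BM (fun w => a w * g w) := by
  apply hg.mul ha.measurable
  intro R
  obtain ⟨C, hC⟩ := (isCompact_closedBall (0 : ℂ) R).exists_bound_of_continuousOn ha.continuousOn
  exact ⟨C, fun w hw => hC w (by simpa using hw)⟩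

theorem Fn.bmTa {X : Set ℂ} (hX : IsCompact X) {F a ψ : ℂ → ℂ} (hF : Fn X F) (h : Test ψ)
    (ha : Continuous a) : BM (X.indicator fun w => (F w - a w) * dbar ψ w) := by
  have h1 := (hF.bm h).add ((h.bm.mul_cont ha).neg)
  have e : (fun w => F w * dbar ψ w + -(a w * dbar ψ w)) = fun w => (F w - a w) * dbar ψ w := by
    funext w; ring
  rw [e] at h1
  exact h1.indicator hX.isClosed.measurableSet

theorem apx_Ta {X : Set ℂ} (hX : IsCompact X) {F a ψ : ℂ → ℂ} (hF : Fn X F) (h : Test ψ)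
    (ha : Differentiable ℂ a) : Apx X (fun z => T F ψ z - Ta X F a ψ z) := by
  have hac : ContDiff ℝ 1 a := (ha.contDiff (n := 1)).restrict_scalars ℝ
  have hXm : MeasurableSet X := hX.isClosed.measurableSet
  have hb1 : BM (fun w => a w * dbar ψ w) := h.bm.mul_cont ha.continuous
  have hb2 : BM (Xᶜ.indicator fun w => a w * dbar ψ w) := hb1.indicator hXm.compl
  have h1 : Apx X (P (Xᶜ.indicator fun w => a w * dbar ψ w)) := by
    apply apx_off hX hb2
    intro w hw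
    exact indicator_of_notMem (Set.notMem_compl_iff.2 hw) _
  refine (h1.smul (Real.pi : ℂ)⁻¹).congr fun z _ => ?_
  have hpi : (Real.pi : ℂ) ≠ 0 := by exact_mod_cast Real.pi_ne_zero
  have h2 := Pool.Agent.H761R2.SV.pompeiu_compact (hac.mul h.cd) h.cs.mul_left z
  have h3 : ∫ w, dbar (fun w => a w * ψ w) w * (z - w)⁻¹ = P (fun w => a w * dbar ψ w) z := by
    unfold P
    congr 1
    funext w
    rw [Pool.Agent.H761R2.SV.dbar_mul hac h.cd w, Pool.Agent.H761R2.SV.dbar_hol (ha w),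
      zero_mul, zero_add]
  have h4 : P (fun w => F w * dbar ψ w) z =
      P (X.indicator fun w => (F w - a w) * dbar ψ w) z + (P (fun w => a w * dbar ψ w) z
        + - P (Xᶜ.indicator fun w => a w * dbar ψ w) z) := by
    rw [← P_neg, ← P_add hb1 hb2.neg, ← P_add (hF.bmTa hX h ha.continuous) (hb1.add hb2.neg)]
    congr 1
    funext w
    by_cases hw : w ∈ X
    · rw [indicator_of_mem hw, indicator_of_notMem (Set.notMem_compl_iff.2 hw)]; ring
    · rw [indicator_of_notMem hw, indicator_of_mem (show w ∈ Xᶜ from hw), hF.zero w hw]; ring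
  have h5 : P (fun w => a w * dbar ψ w) z = Real.pi * (a z * ψ z) := by
    rw [← h3]; exact h2
  unfold T Ta
  rw [h4, h5]
  field_simp
  ring

/-- the bad set -/
def Bad (X : Set ℂ) (F : ℂ → ℂ) : Set ℂ :=
  {z | ∀ U : Set ℂ, IsOpen U → z ∈ U → ∃ ψ, Test ψ ∧ tsupport ψ ⊆ U ∧ ¬ Apx X (T F ψ)}

theorem good_off {X : Set ℂ} {F ψ : ℂ → ℂ} (hF : Fn X F) (hs : tsupport ψ ⊆ Xᶜ) :
    Apx X (T F ψ) := by
  refine (Apx.zero X).congr fun z hz => ?_
  unfold T
  have e : (fun w => F w * dbar ψ w) = fun _ => 0 := by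
    funext w
    by_cases hw : w ∈ X
    · rw [dbar_off (fun h => hs h hw), mul_zero]
    · rw [hF.zero w hw, zero_mul]
  rw [e, P_zero, image_eq_zero_of_notMem_tsupport (fun h => hs h hz)]
  simp

theorem isClosed_bad (X : Set ℂ) (F : ℂ → ℂ) : IsClosed (Bad X F) := by
  rw [← isOpen_compl_iff, isOpen_iff_mem_nhds]
  intro z hz
  have hz' : ¬ ∀ U : Set ℂ, IsOpen U → z ∈ U →
    ∃ ψ, Test ψ ∧ tsupport ψ ⊆ U ∧ ¬ Apx X (T F ψ) := hz
  push Not at hz'
  obtain ⟨U, hU, hzU, h⟩ := hz'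
  filter_upwards [hU.mem_nhds hzU] with w hw hwB
  obtain ⟨ψ, h1, h2, h3⟩ := hwB U hU hw
  exact h3 (h ψ h1 h2)

theorem bad_subset {X : Set ℂ} (hX : IsCompact X) {F : ℂ → ℂ} (hF : Fn X F) : Bad X F ⊆ X := by
  intro z hz
  by_contra hzX
  obtain ⟨ψ, _, h2, h3⟩ := hz Xᶜ hX.isClosed.isOpen_compl hzX
  exact h3 (good_off hF h2)

theorem tsupport_mul_sub {φ ψ : ℂ → ℂ} :
    tsupport (fun w => φ w * ψ w) ⊆ tsupport φ ∩ tsupport ψ := by
  apply subset_inter
  · apply closure_mono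
    intro w hw h
    exact hw (by simp only []; rw [h, zero_mul])
  · apply closure_mono
    intro w hw h
    exact hw (by simp only []; rw [h, mul_zero])

theorem good_of_disjoint {X : Set ℂ} {F ψ : ℂ → ℂ} (hF : Fn X F) (hψ : Test ψ)
    (hd : ∀ z ∈ tsupport ψ, z ∉ Bad X F) : Apx X (T F ψ) := by
  have hK : IsCompact (tsupport ψ) := hψ.cs
  set 𝒰 : Set (Set ℂ) := {U | IsOpen U ∧ ∀ ψ', Test ψ' → tsupport ψ' ⊆ U → Apx X (T F ψ')}
    with hUdef
  have hcov : tsupport ψ ⊆ ⋃₀ 𝒰 := by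
    intro z hz
    have hz' : ¬ ∀ U : Set ℂ, IsOpen U → z ∈ U →
      ∃ ψ, Test ψ ∧ tsupport ψ ⊆ U ∧ ¬ Apx X (T F ψ) := hd z hz
    push Not at hz'
    obtain ⟨U, hU, hzU, h⟩ := hz'
    exact ⟨U, ⟨hU, h⟩, hzU⟩
  obtain ⟨δ, hδ, hδU⟩ := lebesgue_number_lemma_of_metric_sUnion hK (fun U hU => hU.1) hcov
  obtain ⟨R, hR⟩ := hK.isBounded.subset_closedBall (0 : ℂ)
  obtain ⟨C, _, hgrid⟩ := grid
  obtain ⟨J, φ, Q, h1, _, h3, h4, _, _, h7, _⟩ := hgrid (δ / 5) R (by positivity)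
  have hdec : ψ = fun w => ∑ i ∈ J, φ i w * ψ w := by
    funext w
    rw [← Finset.sum_mul]
    by_cases hw : w ∈ tsupport ψ
    · rw [h7 w (by simpa using hR hw), one_mul]
    · rw [image_eq_zero_of_notMem_tsupport hw, mul_zero]
  have hT : ∀ i ∈ J, Test (fun w => φ i w * ψ w) := fun i _ => Test.mul (h1 i) hψ
  have key : ∀ i ∈ J, Apx X (T F fun w => φ i w * ψ w) := by
    intro i hi
    rcases (tsupport fun w => φ i w * ψ w).eq_empty_or_nonempty with he | ⟨w0, hw0⟩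
    · apply good_off hF
      rw [he]
      exact empty_subset _
    · have hw1 := tsupport_mul_sub hw0
      obtain ⟨U, hU, hbU⟩ := hδU w0 hw1.2
      apply hU.2 _ (hT i hi)
      intro w hw
      have hw2 := tsupport_mul_sub hw
      apply hbU
      rw [mem_ball, dist_eq_norm]
      have := h4 i w (h3 i hw2.1) w0 (h3 i hw1.1)
      linarith
  have h8 := Apx.sum J key
  refine h8.congr fun z _ => ?_
  conv_lhs => rw [hdec]
  exact T_sum hF J hT z

end Pool.Agent.X202.RA
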