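import Pool.Agent.X202.RA.Core

/-! The main estimate, second part. -/

set_option autoImplicit false
open Complex MeasureTheory Filter Topology Metric Set
open Pool.Agent.H761R2.SV (dbar)

namespace Pool.Agent.X202.RA

theorem good_core {X : Set ℂ} (hX : IsCompact X) {F f ψ : ℂ → ℂ} (hF : Fn X F)
    (hfF : ∀ w ∈ X, F w = f w) (hf : Continuous f) (hψ : Test ψ) {n : ℝ} (hn : 0 ≤ n)
    (hL : ∀ z ∈ Bad X F ∩ tsupport ψ, ∀ w ∈ X, ‖f w - f z‖ ≤ n * ‖w - z‖)
    (hd : ∀ z ∈ Bad X F ∩ tsupport ψ, DiffAt X f z) : Apx X (T F ψ) := by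
  classical
  set K : Set ℂ := Bad X F ∩ tsupport ψ with hKdef
  have hKc : IsCompact K := hψ.cs.isCompact.inter_left (isClosed_bad X F)
  have hKX : K ⊆ X := fun z hz => bad_subset hX hF hz.1
  apply Apx.lim
  intro ε₀ hε₀
  obtain ⟨C, hC0, hgrid⟩ := grid
  obtain ⟨M1, hM1⟩ := hψ.cs.exists_bound_of_continuous hψ.cd.continuous
  obtain ⟨M2, hM2⟩ := (dbar_compact hψ.cs).exists_bound_of_continuous
    (Pool.Agent.H761R2.SV.continuous_dbar hψ.cd)
  have hM10 : 0 ≤ M1 := (norm_nonneg _).trans (hM1 0)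
  have hM20 : 0 ≤ M2 := (norm_nonneg _).trans (hM2 0)
  obtain ⟨R, hR⟩ := hψ.cs.isCompact.isBounded.subset_closedBall (0 : ℂ)
  set E : Set ℂ := closedBall (0 : ℂ) R with hE
  have hEm : MeasurableSet E := measurableSet_closedBall
  have hEf : volume E ≠ ⊤ := (isCompact_closedBall (0 : ℂ) R).measure_lt_top.ne
  set I0 : ℝ := Ir 1 + (1 : ℝ)⁻¹ * (volume E).toReal with hI0
  have hI0n : 0 ≤ I0 := by
    have := Ir_nonneg 1
    positivity
  have hI0b : ∀ z : ℂ, ∫ w in E, ‖z - w‖⁻¹ ≤ I0 := fun z => ker_le hEm hEf one_pos z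
  set D : ℝ := 36 * (C * M1 + M2) with hD
  have hD0 : 0 ≤ D := by positivity
  set ε : ℝ := ε₀ / (3 * (D * I0 + 1)) with hε
  have hεpos : 0 < ε := by positivity
  obtain ⟨η, hη, hsm⟩ := ker_small (show 0 < ε₀ / (3 * (D * n + 1)) by positivity)
  obtain ⟨k, τ, hτ, hG⟩ := exists_shell (X := X) hKc hf hεpos hd hη
  set A : Set ℂ := Ak X K f ε k with hA
  set G : Set ℂ := cthickening τ K \ A with hGdef
  have hGm : MeasurableSet G :=
    isClosed_cthickening.measurableSet.diff (Ak_closed hKc hf ε k).measurableSet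
  have hGf : volume G ≠ ⊤ := ne_top_of_le_ne_top ENNReal.ofReal_ne_top hG
  -- the scale
  obtain ⟨s, hs, hs1, hs2, hs3, hs4⟩ : ∃ s : ℝ, 0 < s ∧ s ≤ 1 ∧ 4 * s ≤ τ ∧
      4 * s < 1 / ((k : ℝ) + 1) ∧ 36 * s * (n + ε) * M1 ≤ ε₀ / 3 := by
    have ha : (0 : ℝ) < 1 / ((k : ℝ) + 1) := by positivity
    refine ⟨min (min 1 (τ / 4)) (min (1 / ((k : ℝ) + 1) / 5)
      (ε₀ / (3 * (36 * (n + ε) * M1 + 1)))), ?_, ?_, ?_, ?_, ?_⟩
    · positivity
    · exact (min_le_left _ _).trans (min_le_left _ _)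
    · have := (min_le_left (min 1 (τ / 4)) (min (1 / ((k : ℝ) + 1) / 5)
        (ε₀ / (3 * (36 * (n + ε) * M1 + 1))))).trans (min_le_right _ _)
      linarith
    · have := (min_le_right (min 1 (τ / 4)) (min (1 / ((k : ℝ) + 1) / 5)
        (ε₀ / (3 * (36 * (n + ε) * M1 + 1))))).trans (min_le_left _ _)
      linarith
    · have h1 := (min_le_right (min 1 (τ / 4)) (min (1 / ((k : ℝ) + 1) / 5)
        (ε₀ / (3 * (36 * (n + ε) * M1 + 1))))).trans (min_le_right _ _)
      rw [le_div_iff₀ (by positivity)] at h1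
      have h2 : 0 ≤ min (min 1 (τ / 4)) (min (1 / ((k : ℝ) + 1) / 5)
        (ε₀ / (3 * (36 * (n + ε) * M1 + 1)))) := by positivity
      nlinarith
  obtain ⟨J, φ, Q, g1, g2, g3, g4, g5, g6, g7, g8⟩ := hgrid s R hs
  have hdec : ψ = fun w => ∑ i ∈ J, φ i w * ψ w := by
    funext w
    rw [← Finset.sum_mul]
    by_cases hw : w ∈ tsupport ψ
    · rw [g7 w (mem_closedBall_zero_iff.1 (hR hw)), one_mul]
    · rw [image_eq_zero_of_notMem_tsupport hw, mul_zero]
  have hT : ∀ i, Test (fun w => φ i w * ψ w) := fun i => Test.mul (g1 i) hψ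
  set J' : Finset (ℕ × ℕ) := J.filter fun i => (Q i ∩ K).Nonempty with hJ'
  set L : ℕ × ℕ → ℝ := fun i => if (Q i ∩ A).Nonempty then ε else n with hLdef
  -- the affine functions
  have hex : ∀ i ∈ J', ∃ a : ℂ → ℂ, Differentiable ℂ a ∧ ∀ w ∈ X, w ∈ Q i →
      ‖f w - a w‖ ≤ 4 * s * L i := by
    intro i hi
    obtain ⟨z, hzQ, hzK⟩ := (Finset.mem_filter.1 hi).2
    by_cases hA' : (Q i ∩ A).Nonempty
    · obtain ⟨z', hzQ', hzA'⟩ := hA'
      obtain ⟨hz'K, c, hc, h⟩ := hzA'
      refine ⟨fun w => f z' + c * (w - z'), by fun_prop, fun w hw hwQ => ?_⟩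
      have hb := g4 i w hwQ z' hzQ'
      have h1 := h w hw (lt_of_le_of_lt hb hs3)
      have h2 : L i = ε := by
        simp only [hLdef]
        rw [if_pos ⟨z', hzQ', hz'K, c, hc, h⟩]
      rw [h2]
      calc ‖f w - (f z' + c * (w - z'))‖ = ‖f w - f z' - c * (w - z')‖ := by congr 1; ring
        _ ≤ ε * ‖w - z'‖ := h1
        _ ≤ ε * (4 * s) := mul_le_mul_of_nonneg_left hb hεpos.le
        _ = 4 * s * ε := by ring
    · refine ⟨fun _ => f z, differentiable_const _, fun w hw hwQ => ?_⟩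
      have h2 : L i = n := by
        simp only [hLdef]
        rw [if_neg hA']
      rw [h2]
      calc ‖f w - f z‖ ≤ n * ‖w - z‖ := hL z hzK w hw
        _ ≤ n * (4 * s) := mul_le_mul_of_nonneg_left (g4 i w hwQ z hzQ) hn
        _ = 4 * s * n := by ring
  choose! a ha1 ha2 using hex
  have hL0 : ∀ i, 0 ≤ L i := fun i => by
    simp only [hLdef]; split_ifs <;> [exact hεpos.le; exact hn]
  have hLn : ∀ i, L i ≤ n + ε := fun i => by
    simp only [hLdef]; split_ifs <;> linarith [hεpos.le]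
  -- the good part
  have hgood : ∀ i ∈ J \ J', Apx X (T F fun w => φ i w * ψ w) := by
    intro i hi
    have hi' := Finset.mem_sdiff.1 hi
    apply good_of_disjoint hF (hT i)
    intro z hz hzB
    have h1 := tsupport_mul_sub hz
    exact hi'.2 (Finset.mem_filter.2 ⟨hi'.1, z, g3 i h1.1, hzB, h1.2⟩)
  have hgood' : ∀ i ∈ J', Apx X (fun z => T F (fun w => φ i w * ψ w) z -
      Ta X F (a i) (fun w => φ i w * ψ w) z) :=
    fun i hi => apx_Ta hX hF (hT i) (ha1 i hi)
  refine ⟨fun z => (∑ i ∈ J \ J', T F (fun w => φ i w * ψ w) z) +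
    ∑ i ∈ J', (T F (fun w => φ i w * ψ w) z - Ta X F (a i) (fun w => φ i w * ψ w) z),
    (Apx.sum _ hgood).add (Apx.sum _ hgood'), fun z hz => ?_⟩
  have hsub : J' ⊆ J := Finset.filter_subset _ _
  have e1 : T F ψ z = ∑ i ∈ J, T F (fun w => φ i w * ψ w) z := by
    conv_lhs => rw [hdec]
    exact T_sum hF J (fun i _ => hT i) z
  have e2 : T F ψ z - ((∑ i ∈ J \ J', T F (fun w => φ i w * ψ w) z) +
    ∑ i ∈ J', (T F (fun w => φ i w * ψ w) z - Ta X F (a i) (fun w => φ i w * ψ w) z)) =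
      ∑ i ∈ J', Ta X F (a i) (fun w => φ i w * ψ w) z := by
    rw [e1, ← Finset.sum_sdiff hsub, Finset.sum_sub_distrib]
    ring
  rw [e2]
  -- split `Ta`
  have hbm : ∀ i ∈ J', BM (X.indicator fun w => (F w - a i w) * dbar (fun w => φ i w * ψ w) w) :=
    fun i hi => hF.bmTa hX (hT i) (ha1 i hi).continuous
  have e3 : ∑ i ∈ J', Ta X F (a i) (fun w => φ i w * ψ w) z =
      (∑ i ∈ J', (F z - a i z) * (φ i z * ψ z)) - (Real.pi : ℂ)⁻¹ *
        P (fun w => ∑ i ∈ J', X.indicator
          (fun w => (F w - a i w) * dbar (fun w => φ i w * ψ w) w) w) z := by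
    rw [P_sum J' hbm, Finset.mul_sum, ← Finset.sum_sub_distrib]
    rfl
  rw [e3]
  -- first sum
  have b1 : ‖∑ i ∈ J', (F z - a i z) * (φ i z * ψ z)‖ ≤ ε₀ / 3 := by
    have h1 : ∑ i ∈ J', (F z - a i z) * (φ i z * ψ z) =
        ∑ i ∈ J'.filter (fun i => z ∈ Q i), (F z - a i z) * (φ i z * ψ z) := by
      symm
      apply Finset.sum_subset (Finset.filter_subset _ _)
      intro i hi hi2
      have : z ∉ Q i := fun h => hi2 (Finset.mem_filter.2 ⟨hi, h⟩)
      rw [image_eq_zero_of_notMem_tsupport (fun h => this (g3 i h))]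
      ring
    rw [h1]
    have h2 : ∀ i ∈ J'.filter (fun i => z ∈ Q i),
        ‖(F z - a i z) * (φ i z * ψ z)‖ ≤ 4 * s * (n + ε) * M1 := by
      intro i hi
      have hi' := Finset.mem_filter.1 hi
      rw [norm_mul, norm_mul, hfF z hz]
      have h3 := ha2 i hi'.1 z hz hi'.2
      calc ‖f z - a i z‖ * (‖φ i z‖ * ‖ψ z‖) ≤ (4 * s * L i) * (1 * M1) := by
            apply mul_le_mul h3 (mul_le_mul (g5 i z) (hM1 z) (norm_nonneg _) zero_le_one)
              (by positivity)
            have := hL0 i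
            positivity
        _ ≤ (4 * s * (n + ε)) * (1 * M1) := by
            apply mul_le_mul_of_nonneg_right _ (by positivity)
            exact mul_le_mul_of_nonneg_left (hLn i) (by positivity)
        _ = 4 * s * (n + ε) * M1 := by ring
    have h3 := norm_sum_le_of_le _ h2
    rw [Finset.sum_const, nsmul_eq_mul] at h3
    have h4 : ((J'.filter (fun i => z ∈ Q i)).card : ℝ) ≤ 9 := by
      exact_mod_cast g8 z _ ((Finset.filter_subset _ _).trans hsub)
        (fun i hi => (Finset.mem_filter.1 hi).2)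
    have h5 : (0 : ℝ) ≤ 4 * s * (n + ε) * M1 := by positivity
    calc _ ≤ _ := h3
      _ ≤ 9 * (4 * s * (n + ε) * M1) := mul_le_mul_of_nonneg_right h4 h5
      _ ≤ ε₀ / 3 := by linarith
  -- second sum
  have b2 : ∀ w, ‖∑ i ∈ J', X.indicator
      (fun w => (F w - a i w) * dbar (fun w => φ i w * ψ w) w) w‖ ≤
      E.indicator (fun _ => D * ε) w + G.indicator (fun _ => D * n) w := by
    intro w
    have hRHS : 0 ≤ E.indicator (fun _ => D * ε) w + G.indicator (fun _ => D * n) w := by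
      apply add_nonneg <;> apply indicator_nonneg <;> intro _ _ <;> positivity
    by_cases hwX : w ∈ X
    swap
    · rw [Finset.sum_eq_zero fun i _ => indicator_of_notMem hwX _, norm_zero]
      exact hRHS
    by_cases hwψ : w ∈ tsupport ψ
    swap
    · rw [Finset.sum_eq_zero fun i _ => ?_, norm_zero]
      · exact hRHS
      · rw [indicator_of_mem hwX, dbar_off (fun h => hwψ (tsupport_mul_sub h).2), mul_zero]
    have hwE : w ∈ E := hR hwψ
    rw [indicator_of_mem hwE]
    have h1 : ∑ i ∈ J', X.indicator (fun w => (F w - a i w) * dbar (fun w => φ i w * ψ w) w) w =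
        ∑ i ∈ J'.filter (fun i => w ∈ Q i),
          X.indicator (fun w => (F w - a i w) * dbar (fun w => φ i w * ψ w) w) w := by
      symm
      apply Finset.sum_subset (Finset.filter_subset _ _)
      intro i hi hi2
      have : w ∉ Q i := fun h => hi2 (Finset.mem_filter.2 ⟨hi, h⟩)
      rw [indicator_of_mem hwX, dbar_off (fun h => this (g3 i (tsupport_mul_sub h).1)), mul_zero]
    rw [h1]
    have h2 : ∀ i ∈ J'.filter (fun i => w ∈ Q i), ‖X.indicator
        (fun w => (F w - a i w) * dbar (fun w => φ i w * ψ w) w) w‖ ≤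
        4 * (C * M1 + M2) * (ε + G.indicator (fun _ => n) w) := by
      intro i hi
      have hi' := Finset.mem_filter.1 hi
      rw [indicator_of_mem hwX, norm_mul, hfF w hwX]
      have h3 := ha2 i hi'.1 w hwX hi'.2
      have h4 : ‖dbar (fun w => φ i w * ψ w) w‖ ≤ C / s * M1 + M2 := by
        rw [Pool.Agent.H761R2.SV.dbar_mul (g1 i) hψ.cd w]
        refine (norm_add_le _ _).trans (add_le_add ?_ ?_)
        · rw [norm_mul]
          exact mul_le_mul (g6 i w) (hM1 w) (norm_nonneg _) (by positivity)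
        · rw [norm_mul]
          calc ‖φ i w‖ * ‖dbar ψ w‖ ≤ 1 * M2 :=
                mul_le_mul (g5 i w) (hM2 w) (norm_nonneg _) zero_le_one
            _ = M2 := one_mul _
      have h5 : L i ≤ ε + G.indicator (fun _ => n) w := by
        by_cases hA' : (Q i ∩ A).Nonempty
        · have : L i = ε := by simp only [hLdef]; rw [if_pos hA']
          rw [this]
          have : 0 ≤ G.indicator (fun _ => n) w := indicator_nonneg (fun _ _ => hn) _
          linarith
        · have hLi : L i = n := by simp only [hLdef]; rw [if_neg hA']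
          obtain ⟨z', hzQ', hzK'⟩ := (Finset.mem_filter.1 hi'.1).2
          have hwG : w ∈ G := by
            refine ⟨?_, fun h => hA' ⟨w, hi'.2, h⟩⟩
            apply mem_cthickening_of_dist_le w z' τ K hzK'
            rw [dist_eq_norm]
            exact (g4 i w hi'.2 z' hzQ').trans hs2
          rw [indicator_of_mem hwG, hLi]
          linarith
      have h6 : 0 ≤ ε + G.indicator (fun _ => n) w := (hL0 i).trans h5
      calc ‖f w - a i w‖ * ‖dbar (fun w => φ i w * ψ w) w‖
          ≤ (4 * s * L i) * (C / s * M1 + M2) := by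
            apply mul_le_mul h3 h4 (norm_nonneg _)
            have := hL0 i
            positivity
        _ = 4 * (C * M1 + s * M2) * L i := by field_simp
        _ ≤ 4 * (C * M1 + M2) * (ε + G.indicator (fun _ => n) w) := by
            apply mul_le_mul _ h5 (hL0 i) (by positivity)
            have : s * M2 ≤ 1 * M2 := mul_le_mul_of_nonneg_right hs1 hM20
            linarith
    have h3 := norm_sum_le_of_le _ h2
    rw [Finset.sum_const, nsmul_eq_mul] at h3
    have h4 : ((J'.filter (fun i => w ∈ Q i)).card : ℝ) ≤ 9 := by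
      exact_mod_cast g8 w _ ((Finset.filter_subset _ _).trans hsub)
        (fun i hi => (Finset.mem_filter.1 hi).2)
    have h5 : (0 : ℝ) ≤ 4 * (C * M1 + M2) * (ε + G.indicator (fun _ => n) w) := by
      have : 0 ≤ G.indicator (fun _ => n) w := indicator_nonneg (fun _ _ => hn) _
      positivity
    calc _ ≤ _ := h3
      _ ≤ 9 * (4 * (C * M1 + M2) * (ε + G.indicator (fun _ => n) w)) :=
          mul_le_mul_of_nonneg_right h4 h5
      _ = D * ε + G.indicator (fun _ => D * n) w := by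
          by_cases hw : w ∈ G
          · rw [indicator_of_mem hw, indicator_of_mem hw, hD]; ring
          · rw [indicator_of_notMem hw, indicator_of_notMem hw, hD]; ring
  have b3 := P_le hEm hEf hGm hGf (by positivity) (by positivity) b2 z
  have b4 : D * ε * (∫ w in E, ‖z - w‖⁻¹) ≤ ε₀ / 3 := by
    calc D * ε * (∫ w in E, ‖z - w‖⁻¹) ≤ D * ε * I0 :=
          mul_le_mul_of_nonneg_left (hI0b z) (by positivity)
      _ = (D * I0) * ε₀ / (3 * (D * I0 + 1)) := by rw [hε]; ring
      _ ≤ ε₀ / 3 := by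
          rw [div_le_div_iff₀ (by positivity) (by norm_num)]
          nlinarith [mul_nonneg hD0 hI0n]
  have b5 : D * n * (∫ w in G, ‖z - w‖⁻¹) ≤ ε₀ / 3 := by
    calc D * n * (∫ w in G, ‖z - w‖⁻¹) ≤ D * n * (ε₀ / (3 * (D * n + 1))) :=
          mul_le_mul_of_nonneg_left (hsm G hGm hG z) (by positivity)
      _ = (D * n) * ε₀ / (3 * (D * n + 1)) := by ring
      _ ≤ ε₀ / 3 := by
          rw [div_le_div_iff₀ (by positivity) (by norm_num)]
          nlinarith [mul_nonneg hD0 hn]
  have b6 : ‖(Real.pi : ℂ)⁻¹‖ ≤ 1 := by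
    rw [norm_inv, Complex.norm_real, Real.norm_eq_abs, abs_of_pos Real.pi_pos]
    apply inv_le_one_of_one_le₀
    linarith [Real.pi_gt_three]
  refine (norm_sub_le _ _).trans ?_
  rw [norm_mul]
  have b7 : ‖(Real.pi : ℂ)⁻¹‖ * ‖P (fun w => ∑ i ∈ J', X.indicator
      (fun w => (F w - a i w) * dbar (fun w => φ i w * ψ w) w) w) z‖ ≤ 1 * (ε₀ / 3 + ε₀ / 3) :=
    mul_le_mul b6 (b3.trans (add_le_add b4 b5)) (norm_nonneg _) zero_le_one
  linarith

end Pool.Agent.X202.RA
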