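import Pool.Agent.X202.RA.Kern

/-! Rational approximation: definitions, and Cauchy transforms of densities vanishing on `X`. -/

set_option autoImplicit false
open Complex MeasureTheory Filter Topology Metric Set

namespace Pool.Agent.X202.RA

/-- `R_0(X)`: the restrictions to `X` of the rational functions without poles on `X`. -/
def R0 (X : Set ℂ) : Set C(X, ℂ) :=
  {g | ∃ p q : Polynomial ℂ, (∀ z ∈ X, q.eval z ≠ 0) ∧
    ∀ z : X, g z = p.eval (z : ℂ) / q.eval (z : ℂ)}

/-- uniform approximability on `X` by rational functions -/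
def Apx (X : Set ℂ) (h : ℂ → ℂ) : Prop :=
  ∀ ε : ℝ, 0 < ε → ∃ r ∈ R0 X, ∀ z : X, ‖h z - r z‖ ≤ ε

theorem R0_add {X : Set ℂ} {f g : C(X, ℂ)} (hf : f ∈ R0 X) (hg : g ∈ R0 X) : f + g ∈ R0 X := by
  obtain ⟨p, q, hq, h⟩ := hf
  obtain ⟨p', q', hq', h'⟩ := hg
  refine ⟨p * q' + p' * q, q * q', fun z hz => ?_, fun z => ?_⟩
  · rw [Polynomial.eval_mul]; exact mul_ne_zero (hq z hz) (hq' z hz)
  · have h1 := hq z z.2
    have h2 := hq' z z.2
    rw [ContinuousMap.add_apply, h, h', Polynomial.eval_mul, Polynomial.eval_add,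
      Polynomial.eval_mul, Polynomial.eval_mul]
    field_simp

theorem R0_smul {X : Set ℂ} (c : ℂ) {f : C(X, ℂ)} (hf : f ∈ R0 X) : c • f ∈ R0 X := by
  obtain ⟨p, q, hq, h⟩ := hf
  refine ⟨Polynomial.C c * p, q, hq, fun z => ?_⟩
  rw [ContinuousMap.smul_apply, h, Polynomial.eval_mul, Polynomial.eval_C, smul_eq_mul, mul_div_assoc]

theorem R0_zero (X : Set ℂ) : (0 : C(X, ℂ)) ∈ R0 X :=
  ⟨0, 1, fun z _ => by simp, fun z => by simp⟩

/-- `R_0(X)` as a linear subspace -/
def R0S (X : Set ℂ) : Submodule ℂ C(X, ℂ) where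
  carrier := R0 X
  zero_mem' := R0_zero X
  add_mem' := R0_add
  smul_mem' := fun c _ h => R0_smul c h

theorem Apx.add {X : Set ℂ} {f g : ℂ → ℂ} (hf : Apx X f) (hg : Apx X g) :
    Apx X (fun z => f z + g z) := by
  intro ε hε
  obtain ⟨r, hr, h1⟩ := hf (ε / 2) (by positivity)
  obtain ⟨s, hs, h2⟩ := hg (ε / 2) (by positivity)
  refine ⟨r + s, R0_add hr hs, fun z => ?_⟩
  rw [ContinuousMap.add_apply]
  calc ‖f z + g z - (r z + s z)‖ = ‖(f z - r z) + (g z - s z)‖ := by congr 1; ring
    _ ≤ ε / 2 + ε / 2 := (norm_add_le _ _).trans (add_le_add (h1 z) (h2 z))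
    _ = ε := by ring

theorem Apx.smul {X : Set ℂ} {f : ℂ → ℂ} (c : ℂ) (hf : Apx X f) :
    Apx X (fun z => c * f z) := by
  intro ε hε
  obtain ⟨r, hr, h1⟩ := hf (ε / (‖c‖ + 1)) (by positivity)
  refine ⟨c • r, R0_smul c hr, fun z => ?_⟩
  rw [ContinuousMap.smul_apply, smul_eq_mul, ← mul_sub, norm_mul]
  have h2 := h1 z
  rw [le_div_iff₀ (by positivity)] at h2
  nlinarith [norm_nonneg c, norm_nonneg (f z - r z)]

theorem Apx.zero (X : Set ℂ) : Apx X (fun _ => 0) :=
  fun ε hε => ⟨0, R0_zero X, fun z => by simp [hε.le]⟩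

theorem Apx.sum {X : Set ℂ} {ι : Type*} (s : Finset ι) {g : ι → ℂ → ℂ}
    (hg : ∀ i ∈ s, Apx X (g i)) : Apx X (fun w => ∑ i ∈ s, g i w) := by
  classical
  induction s using Finset.induction_on with
  | empty => simpa using Apx.zero X
  | insert a s ha ih =>
    have h1 := ih fun i hi => hg i (Finset.mem_insert_of_mem hi)
    have h2 := hg a (Finset.mem_insert_self _ _)
    have e : (fun w => ∑ i ∈ insert a s, g i w) = fun w => g a w + ∑ i ∈ s, g i w := by
      funext w; rw [Finset.sum_insert ha]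
    rw [e]
    exact h2.add h1

theorem Apx.congr {X : Set ℂ} {f g : ℂ → ℂ} (hf : Apx X f) (h : ∀ z ∈ X, g z = f z) :
    Apx X g := by
  intro ε hε
  obtain ⟨r, hr, h1⟩ := hf ε hε
  exact ⟨r, hr, fun z => by rw [h z z.2]; exact h1 z⟩

theorem Apx.lim {X : Set ℂ} {f : ℂ → ℂ}
    (h : ∀ ε : ℝ, 0 < ε → ∃ g, Apx X g ∧ ∀ z ∈ X, ‖f z - g z‖ ≤ ε) : Apx X f := by
  intro ε hε
  obtain ⟨g, hg, h1⟩ := h (ε / 2) (by positivity)
  obtain ⟨r, hr, h2⟩ := hg (ε / 2) (by positivity)
  refine ⟨r, hr, fun z => ?_⟩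
  calc ‖f z - r z‖ = ‖(f z - g z) + (g z - r z)‖ := by congr 1; ring
    _ ≤ ε / 2 + ε / 2 := (norm_add_le _ _).trans (add_le_add (h1 z z.2) (h2 z))
    _ = ε := by ring

theorem Apx.of_closure {X : Set ℂ} [CompactSpace X] {f : ℂ → ℂ} {F : C(X, ℂ)}
    (hF : F ∈ closure (R0 X)) (h : ∀ z : X, F z = f z) : Apx X f := by
  intro ε hε
  obtain ⟨r, hr, h1⟩ := Metric.mem_closure_iff.1 hF ε hε
  refine ⟨r, hr, fun z => ?_⟩
  rw [← h z, ← dist_eq_norm]
  exact (ContinuousMap.dist_apply_le_dist z).trans h1.le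

theorem Apx.closure {X : Set ℂ} [CompactSpace X] {f : ℂ → ℂ} {F : C(X, ℂ)}
    (hf : Apx X f) (h : ∀ z : X, F z = f z) : F ∈ _root_.closure (R0 X) := by
  rw [Metric.mem_closure_iff]
  intro ε hε
  obtain ⟨r, hr, h1⟩ := hf (ε / 2) (by positivity)
  refine ⟨r, hr, ?_⟩
  have : dist F r ≤ ε / 2 := by
    rw [ContinuousMap.dist_le (by positivity)]
    intro z
    rw [dist_eq_norm, h z]
    exact h1 z
  linarith

/-- the kernel as an element of `C(X)` -/
noncomputable def kc (X : Set ℂ) : C((Xᶜ : Set ℂ), C(X, ℂ)) :=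
  ContinuousMap.curry ⟨fun p : (Xᶜ : Set ℂ) × X => ((p.2 : ℂ) - (p.1 : ℂ))⁻¹, by
    apply Continuous.inv₀ (by fun_prop)
    intro p h
    have h1 : (p.2 : ℂ) = p.1 := sub_eq_zero.1 h
    exact p.1.2 (h1 ▸ p.2.2)⟩

open scoped Classical in
/-- the kernel extended -/
noncomputable def kx (X : Set ℂ) (w : ℂ) : C(X, ℂ) := if h : w ∈ Xᶜ then kc X ⟨w, h⟩ else 0

theorem kx_apply {X : Set ℂ} {w : ℂ} (hw : w ∉ X) (z : X) : kx X w z = ((z : ℂ) - w)⁻¹ := by
  have h : w ∈ Xᶜ := hw
  rw [kx, dif_pos h]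
  rfl

theorem kx_contOn (X : Set ℂ) : ContinuousOn (kx X) Xᶜ := by
  rw [continuousOn_iff_continuous_domRestrict]
  have e : Xᶜ.domRestrict (kx X) = kc X := by
    funext w
    rw [Set.domRestrict_apply, kx, dif_pos w.2]
  rw [e]
  exact (kc X).continuous

theorem kx_mem {X : Set ℂ} {w : ℂ} : kx X w ∈ R0S X := by
  by_cases hw : w ∈ X
  · have : kx X w = 0 := by rw [kx, dif_neg (by simpa using hw)]
    rw [this]; exact (R0S X).zero_mem
  · refine ⟨1, Polynomial.X - Polynomial.C w, fun z hz => ?_, fun z => ?_⟩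
    · simp only [Polynomial.eval_sub, Polynomial.eval_X, Polynomial.eval_C]
      intro h
      exact hw ((sub_eq_zero.1 h) ▸ hz)
    · rw [kx_apply hw]; simp

/-- Cauchy transforms of densities living on a compact set off `X` -/
theorem apx_compact {X : Set ℂ} (hX : IsCompact X) {D : Set ℂ} (hD : IsCompact D)
    (hDX : D ⊆ Xᶜ) {g : ℂ → ℂ} (hg : BM g) (h0 : ∀ w, w ∉ D → g w = 0) : Apx X (P g) := by
  haveI : CompactSpace X := isCompact_iff_compactSpace.1 hX
  set V : Submodule ℂ C(X, ℂ) := (R0S X).topologicalClosure with hV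
  have hVc : IsClosed (V : Set C(X, ℂ)) := (R0S X).isClosed_topologicalClosure
  have hcont : ContinuousOn (kx X) D := (kx_contOn X).mono hDX
  obtain ⟨C, hC⟩ := hD.exists_bound_of_continuousOn hcont
  obtain ⟨M, hM⟩ := hg.bdd
  have hM0 : 0 ≤ M := (norm_nonneg _).trans (hM 0)
  have hDm : MeasurableSet D := hD.isClosed.measurableSet
  have hint : Integrable (fun w => g w • kx X w) (volume.restrict D) := by
    have hc : Integrable (fun _ : ℂ => M * C) (volume.restrict D) := by
      have := hD.measure_lt_top (μ := volume)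
      haveI : IsFiniteMeasure (volume.restrict D) := ⟨by simpa using this⟩
      exact integrable_const _
    refine Integrable.mono' hc ?_ ?_
    · exact hg.meas.aestronglyMeasurable.smul (hcont.aestronglyMeasurable hDm)
    · rw [ae_restrict_iff' hDm]
      refine Eventually.of_forall fun w hw => ?_
      rw [norm_smul]
      exact mul_le_mul (hM w) (hC w hw) (norm_nonneg _) hM0
  set G : C(X, ℂ) := ∫ w in D, g w • kx X w with hG
  have hGV : G ∈ V := by
    haveI : IsClosed (V : Set C(X, ℂ)) := hVc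
    have h1 : V.mkQL G = 0 := by
      rw [hG, ← ContinuousLinearMap.integral_comp_comm _ hint]
      have : ∀ w, V.mkQL (g w • kx X w) = 0 := by
        intro w
        rw [map_smul]
        have h2 : V.mkQL (kx X w) = 0 := by
          rw [Submodule.mkQL_apply, Submodule.mkQ_apply, Submodule.Quotient.mk_eq_zero]
          exact (R0S X).le_topologicalClosure kx_mem
        rw [h2, smul_zero]
      simp [this]
    rw [Submodule.mkQL_apply, Submodule.mkQ_apply, Submodule.Quotient.mk_eq_zero] at h1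
    exact h1
  apply Apx.of_closure (F := G)
  · have : (V : Set C(X, ℂ)) = closure (R0 X) := by
      rw [hV, Submodule.topologicalClosure_coe]; rfl
    rw [← this]; exact hGV
  · intro z
    have h1 : G z = ∫ w in D, (g w • kx X w) z := by
      have := ContinuousLinearMap.integral_comp_comm (ContinuousMap.evalCLM ℂ z) hint
      simp only [ContinuousMap.evalCLM_apply] at this
      rw [this]
    rw [h1, P]
    have h2 : ∫ w, g w * ((z : ℂ) - w)⁻¹ = ∫ w in D, g w * ((z : ℂ) - w)⁻¹ := by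
      rw [← integral_indicator hDm]
      congr 1
      funext w
      by_cases hw : w ∈ D
      · rw [indicator_of_mem hw]
      · rw [indicator_of_notMem hw, h0 w hw, zero_mul]
    rw [h2]
    apply setIntegral_congr_fun hDm
    intro w hw
    simp only [ContinuousMap.smul_apply, smul_eq_mul]
    rw [kx_apply (hDX hw)]

/-- Cauchy transforms of densities vanishing on `X` -/
theorem apx_off {X : Set ℂ} (hX : IsCompact X) {g : ℂ → ℂ} (hg : BM g)
    (h0 : ∀ w ∈ X, g w = 0) : Apx X (P g) := by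
  rcases X.eq_empty_or_nonempty with hXe | hne
  · subst hXe
    exact fun ε hε => ⟨0, R0_zero _, fun z => absurd z.2 (Set.notMem_empty _)⟩
  obtain ⟨M, hM⟩ := hg.bdd
  have hM0 : 0 ≤ M := (norm_nonneg _).trans (hM 0)
  obtain ⟨R, hR⟩ := hg.supp
  apply Apx.lim
  intro ε hε
  obtain ⟨η, hη, hsm⟩ := ker_small (show 0 < ε / (M + 1) by positivity)
  -- the thin shells
  set S : ℕ → Set ℂ := fun n => {w | w ∈ closedBall (0 : ℂ) R ∧ w ∉ X ∧
    infDist w X < 1 / ((n : ℝ) + 1)} with hS
  have hXc : IsClosed X := hX.isClosed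
  have hSm : ∀ n, MeasurableSet (S n) := fun n => by
    have h1 : MeasurableSet {w : ℂ | infDist w X < 1 / ((n : ℝ) + 1)} :=
      (isOpen_lt (continuous_infDist_pt X) continuous_const).measurableSet
    exact measurableSet_closedBall.inter (hXc.measurableSet.compl.inter h1)
  have hanti : Antitone S := by
    intro m n hmn w hw
    refine ⟨hw.1, hw.2.1, lt_of_lt_of_le hw.2.2 ?_⟩
    have : (m : ℝ) ≤ n := by exact_mod_cast hmn
    apply one_div_le_one_div_of_le <;> [positivity; linarith]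
  have hemp : ⋂ n, S n = ∅ := by
    rw [eq_empty_iff_forall_notMem]
    intro w hw
    rw [mem_iInter] at hw
    have hpos : 0 < infDist w X := (hXc.notMem_iff_infDist_pos hne).1 (hw 0).2.1
    obtain ⟨n, hn⟩ := exists_nat_one_div_lt hpos
    exact absurd (hw n).2.2 (by linarith)
  have hlim := tendsto_measure_iInter_atTop (μ := (volume : Measure ℂ)) (s := S)
    (fun n => (hSm n).nullMeasurableSet) hanti
    ⟨0, ne_top_of_le_ne_top (isCompact_closedBall (0 : ℂ) R).measure_lt_top.ne
      (measure_mono fun w hw => hw.1)⟩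
  rw [hemp, measure_empty] at hlim
  obtain ⟨n, hn⟩ := (hlim.eventually_le_const (show (0 : ENNReal) < ENNReal.ofReal η by
    simpa using hη)).exists
  set D : Set ℂ := {w | w ∈ closedBall (0 : ℂ) R ∧ 1 / ((n : ℝ) + 1) ≤ infDist w X} with hD
  have hDc : IsCompact D := by
    apply (isCompact_closedBall (0 : ℂ) R).inter_right
    exact isClosed_le continuous_const (continuous_infDist_pt X)
  have hDX : D ⊆ Xᶜ := by
    intro w hw hwX
    have h1 := hw.2
    rw [infDist_zero_of_mem hwX] at h1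
    have : (0 : ℝ) < 1 / ((n : ℝ) + 1) := by positivity
    linarith
  have hdec : ∀ w, g w = D.indicator g w + (S n).indicator g w := by
    intro w
    by_cases h1 : ‖w‖ ≤ R
    · by_cases h2 : w ∈ X
      · rw [h0 w h2, indicator_of_notMem (fun h => hDX h h2),
          indicator_of_notMem (fun h => h.2.1 h2), add_zero]
      · rcases le_or_gt (1 / ((n : ℝ) + 1)) (infDist w X) with h3 | h3
        · rw [indicator_of_mem (show w ∈ D from ⟨by simpa using h1, h3⟩),
            indicator_of_notMem (fun h => absurd h.2.2 (not_lt.2 h3)), add_zero]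
        · rw [indicator_of_notMem (fun h => absurd h.2 (not_le.2 h3)),
            indicator_of_mem (show w ∈ S n from ⟨by simpa using h1, h2, h3⟩), zero_add]
    · rw [hR w (not_le.1 h1), indicator_of_notMem (fun h => h1 (by simpa using h.1)),
        indicator_of_notMem (fun h => h1 (by simpa using h.1)), add_zero]
  have hgD : BM (D.indicator g) := hg.indicator hDc.isClosed.measurableSet
  have hgS : BM ((S n).indicator g) := hg.indicator (hSm n)
  refine ⟨P (D.indicator g), apx_compact hX hDc hDX hgD fun w hw => indicator_of_notMem hw _,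
    fun z _ => ?_⟩
  have e : P g z = P (D.indicator g) z + P ((S n).indicator g) z := by
    rw [← P_add hgD hgS]
    congr 1
    funext w
    exact hdec w
  rw [e, add_sub_cancel_left]
  have hfin : volume (S n) ≠ ⊤ := ne_top_of_le_ne_top ENNReal.ofReal_ne_top hn
  have h1 := P_le (g := (S n).indicator g) (hSm n) hfin (hSm n) hfin hM0 le_rfl (fun w => by
    by_cases hw : w ∈ S n
    · rw [indicator_of_mem hw, indicator_of_mem hw, indicator_of_mem hw, add_zero]
      exact hM w
    · rw [indicator_of_notMem hw, indicator_of_notMem hw, indicator_of_notMem hw]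
      simp) z
  have h2 := hsm (S n) (hSm n) hn z
  have h3 : (0 : ℝ) ≤ ∫ w in S n, ‖z - w‖⁻¹ := integral_nonneg fun w => by positivity
  rw [le_div_iff₀ (by positivity)] at h2
  linarith

end Pool.Agent.X202.RA
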